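import Mathlib

set_option autoImplicit false

/-!
# Power means of `∏_j (x_j + t)` in `β`-ensembles: definitions
-/

namespace Pool.Agent.Y705.BE

open MeasureTheory

/-- The `β`-th power of the absolute value of the Vandermonde determinant:
`∏_{k<j} |x_j - x_k| ^ β`. -/
noncomputable def vdm (n : ℕ) (β : ℝ) (x : Fin n → ℝ) : ℝ :=
  ∏ k, ∏ j ∈ Finset.Ioi k, |x j - x k| ^ β

/-- The normalisation `∫ ∏_{k<j} |x_j - x_k| ^ β dν(x_1) ⋯ dν(x_n)`. -/
noncomputable def Z0 (n : ℕ) (β : ℝ) (ν : Measure ℝ) : ℝ :=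
  ∫ x : Fin n → ℝ, vdm n β x ∂(Measure.pi fun _ => ν)

/-- `Z(a, t) = ∫ ∏_{k<j} |x_j - x_k| ^ β ∏_j (x_j + t) ^ a dν(x_1) ⋯ dν(x_n)`. -/
noncomputable def Z (n : ℕ) (β : ℝ) (ν : Measure ℝ) (a t : ℝ) : ℝ :=
  ∫ x : Fin n → ℝ, vdm n β x * ∏ j, (x j + t) ^ a ∂(Measure.pi fun _ => ν)

/-- `∫ ∏_{k<j} |x_j - x_k| ^ β log (∏_j (x_j + t)) dν(x_1) ⋯ dν(x_n)`. -/
noncomputable def ZL (n : ℕ) (β : ℝ) (ν : Measure ℝ) (t : ℝ) : ℝ :=
  ∫ x : Fin n → ℝ, vdm n β x * Real.log (∏ j, (x j + t)) ∂(Measure.pi fun _ => ν)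

/-- The power mean of order `a` (for `a = 0` the geometric mean) of the random variable
`∏_j (X_j + t)`, where `X` has the law with density `∏_{k<j} |x_j - x_k| ^ β / Z0` with respect to
`ν^n`: `(E ∏_j (X_j + t) ^ a) ^ (1/a)` for `a ≠ 0` and `exp (E log ∏_j (X_j + t))` for `a = 0`. -/
noncomputable def PM (n : ℕ) (β : ℝ) (ν : Measure ℝ) (a t : ℝ) : ℝ :=
  if a = 0 then Real.exp (ZL n β ν t / Z0 n β ν) else (Z n β ν a t / Z0 n β ν) ^ (1 / a)

/-- Admissible one-body measures: carried by `[0, ∞)`, all moments finite, not carried by a set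
of at most `n` points. -/
structure Adm (n : ℕ) (ν : Measure ℝ) : Prop where
  nonneg : ν (Set.Iio 0) = 0
  moments : ∀ m : ℕ, Integrable (fun x => x ^ m) ν
  points : ∀ s : Finset ℝ, s.card ≤ n → ν (↑s)ᶜ ≠ 0

/-- The condition at `0` which makes the power mean of order `a` finite and positive also for
`t = 0`: no mass at `0`; `x ^ a` integrable if `a < 0`; `log x` integrable if `a = 0`. -/
structure Near0 (ν : Measure ℝ) (a : ℝ) : Prop where
  atom : ν {0} = 0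
  neg : a < 0 → Integrable (fun x => x ^ a) ν
  zero : a = 0 → Integrable (fun x => Real.log x) ν

end Pool.Agent.Y705.BE
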