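import Pool.Agent.Y705.BE.Ratio

set_option autoImplicit false

/-!
# The Laguerre weight `e^{-x}`
-/

namespace Pool.Agent.Y705.BE

open MeasureTheory Finset
open scoped ENNReal Topology
open Pool.Agent.Helper575

variable {n : ℕ}

/-- `e^{-x} dx` on `(0, ∞)` -/
noncomputable def nuL : Measure ℝ :=
  (volume.restrict (Set.Ioi (0 : ℝ))).withDensity (fun x => ENNReal.ofReal (Real.exp (-x)))

theorem exp_meas : Measurable (fun x : ℝ => ENNReal.ofReal (Real.exp (-x))) := by fun_prop

theorem nuL_integrable {f : ℝ → ℝ} (hf : IntegrableOn (fun x => Real.exp (-x) * f x) (Set.Ioi 0)) :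
    Integrable f nuL := by
  unfold nuL
  rw [integrable_withDensity_iff_integrable_smul' exp_meas
    (Filter.Eventually.of_forall fun x => ENNReal.ofReal_lt_top)]
  refine hf.congr (Filter.Eventually.of_forall fun x => ?_)
  simp only [smul_eq_mul]
  rw [ENNReal.toReal_ofReal (Real.exp_pos _).le]

theorem gamma_int {s : ℝ} (hs : -1 < s) : Integrable (fun x : ℝ => x ^ s) nuL := by
  refine nuL_integrable ?_
  have h := Real.GammaIntegral_convergent (s := s + 1) (by linarith)
  refine h.congr_fun (fun x _ => ?_) measurableSet_Ioi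
  simp only
  congr 2
  ring

theorem mom_int (m : ℕ) : Integrable (fun x : ℝ => x ^ m) nuL := by
  have h := gamma_int (s := (m : ℝ)) (by have := Nat.cast_nonneg (α := ℝ) m; linarith)
  simpa using h

instance : IsFiniteMeasure nuL := by
  have h := mom_int 0
  simp only [pow_zero] at h
  rcases integrable_const_iff.1 h with h0 | h0
  · norm_num at h0
  · exact h0

theorem nuL_null {s : Set ℝ} (hs : (volume.restrict (Set.Ioi (0 : ℝ))) s = 0) : nuL s = 0 :=
  withDensity_absolutelyContinuous _ _ hs

theorem nuL_adm (n : ℕ) : Adm n nuL := by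
  refine ⟨nuL_null ?_, mom_int, fun s _ => ?_⟩
  · rw [Measure.restrict_apply measurableSet_Iio]
    have : Set.Iio (0 : ℝ) ∩ Set.Ioi 0 = ∅ := by
      ext x
      simp only [Set.mem_inter_iff, Set.mem_Iio, Set.mem_Ioi, Set.mem_empty_iff_false, iff_false]
      rintro ⟨h1, h2⟩
      linarith
    rw [this, measure_empty]
  · intro h
    unfold nuL at h
    rw [withDensity_apply_eq_zero exp_meas] at h
    have e : ({x : ℝ | ENNReal.ofReal (Real.exp (-x)) ≠ 0} ∩ (↑s : Set ℝ)ᶜ) = (↑s : Set ℝ)ᶜ := by
      ext x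
      simp [Real.exp_pos]
    rw [e, Measure.restrict_apply s.measurableSet.compl] at h
    have h2 : volume (Set.Ioi (0 : ℝ)) ≤ 0 := by
      calc volume (Set.Ioi (0 : ℝ)) ≤ volume (((↑s : Set ℝ)ᶜ ∩ Set.Ioi 0) ∪ ↑s) := by
            refine measure_mono fun x hx => ?_
            by_cases hxs : x ∈ (↑s : Set ℝ)
            · exact Or.inr hxs
            · exact Or.inl ⟨hxs, hx⟩
        _ ≤ _ := measure_union_le _ _
        _ = 0 := by rw [h, s.finite_toSet.measure_zero, add_zero]
    rw [Real.volume_Ioi] at h2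
    simp at h2

theorem nuL_near0 {a : ℝ} (ha : -1 < a) (ha0 : a ≠ 0) : Near0 nuL a := by
  refine ⟨nuL_null ?_, fun _ => gamma_int ha, fun h => absurd h ha0⟩
  refine le_antisymm ((Measure.restrict_apply_le _ _).trans ?_) (zero_le)
  simp

theorem int_nuL (φ : (Fin n → ℝ) → ℝ) :
    ∫ x, φ x ∂(Measure.pi fun _ : Fin n => nuL) =
      ∫ x in Set.Ici (0 : Fin n → ℝ), Real.exp (-∑ j, x j) * φ x := by
  have hs : SigmaFinite ((volume.restrict (Set.Ioi (0 : ℝ))).withDensity
      fun x => ENNReal.ofReal (Real.exp (-x))) := by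
    change SigmaFinite nuL
    infer_instance
  have hm : Measurable (fun x : Fin n → ℝ => ∏ j, ENNReal.ofReal (Real.exp (-(x j)))) :=
    prod_meas (h := fun y => Real.exp (-y)) (by fun_prop)
  unfold nuL
  rw [pi_withDensity (volume.restrict (Set.Ioi (0 : ℝ)))
      (h := fun x => ENNReal.ofReal (Real.exp (-x))) exp_meas,
    integral_withDensity_eq_integral_toReal_smul hm
      (Filter.Eventually.of_forall fun x => ENNReal.prod_lt_top fun j _ => ENNReal.ofReal_lt_top),
    ← Lag.mu_eq, Lag.mu, Lag.D, volume_pi, Measure.restrict_pi_pi]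
  refine integral_congr_ae (Filter.Eventually.of_forall fun x => ?_)
  simp only [smul_eq_mul]
  rw [ENNReal.toReal_prod, ← Finset.sum_neg_distrib, Real.exp_sum]
  congr 1
  exact Finset.prod_congr rfl fun j _ => ENNReal.toReal_ofReal (Real.exp_pos _).le

end Pool.Agent.Y705.BE
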