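import Pool.Agent.Y705.BE.Int

set_option autoImplicit false

/-!
# The geometric mean: integrals of `|Δ(x)|^(2γ) ∑ log (x_j + t)`
-/

namespace Pool.Agent.Y705.BE

open MeasureTheory Finset
open scoped ENNReal
open Pool.Agent.Helper575
open Pool.Agent.Helper575.Lag (S S_measurable)

variable {n : ℕ}

/-- hypotheses on the one-body measure for the logarithm -/
structure OkL (ν : Measure ℝ) (t0 : ℝ) : Prop where
  nn : 0 ≤ t0
  pos : ∀ᵐ x ∂ν, 0 ≤ x ∧ 0 < x + t0
  mom : ∀ m : ℕ, Integrable (fun x => (1 + x) ^ m) ν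
  log : ∀ m : ℕ, Integrable (fun x => (1 + x) ^ m * |Real.log (x + t0)|) ν

variable {ν : Measure ℝ} [IsFiniteMeasure ν]

theorem OkL.ok {t0 : ℝ} (h : OkL ν t0) : Ok ν 0 t0 :=
  ⟨h.nn, h.pos, fun m => by simpa using h.mom m⟩

/-- `∑ log (x_j + t)` -/
noncomputable def SL (t : ℝ) (x : Fin n → ℝ) : ℝ := ∑ j, Real.log (x j + t)

theorem SL_measurable (t : ℝ) : Measurable (SL (n := n) t) := by
  unfold SL
  refine Finset.measurable_sum _ fun j _ => ?_
  have h : Measurable (fun x : Fin n → ℝ => x j + t) := by fun_prop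
  exact Real.measurable_log.comp h

noncomputable def BL (K : ℕ) (t0 T : ℝ) (x : Fin n → ℝ) : ℝ :=
  ∑ j, ∏ i, ((1 + x i) ^ K * (if i = j then (|Real.log (x i + t0)| + (1 + T) * (1 + x i)) else 1))

theorem BL_integrable {t0 : ℝ} (h : OkL ν t0) (K : ℕ) (T : ℝ) :
    Integrable (BL K t0 T) (Measure.pi fun _ : Fin n => ν) := by
  unfold BL
  refine integrable_finsetSum _ fun j _ => ?_
  refine Integrable.fintype_prod (f := fun (i : Fin n) (y : ℝ) =>
    (1 + y) ^ K * (if i = j then (|Real.log (y + t0)| + (1 + T) * (1 + y)) else 1)) fun i => ?_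
  by_cases hij : i = j
  · simp only [hij, if_true]
    have e : (fun y : ℝ => (1 + y) ^ K * (|Real.log (y + t0)| + (1 + T) * (1 + y))) =
        fun y => (1 + y) ^ K * |Real.log (y + t0)| + (1 + T) * (1 + y) ^ (K + 1) := by
      funext y; ring
    rw [e]
    exact (h.log K).add ((h.mom (K + 1)).const_mul _)
  · simp only [hij, if_false, mul_one]
    exact h.mom K

theorem abs_log_le {t0 s T x : ℝ} (hs : t0 ≤ s) (hT : s ≤ T) (hT0 : 0 ≤ T) (hx : 0 ≤ x)
    (hx0 : 0 < x + t0) : |Real.log (x + s)| ≤ |Real.log (x + t0)| + (1 + T) * (1 + x) := by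
  have h1 : 0 < x + s := by linarith
  have h2 : Real.log (x + t0) ≤ Real.log (x + s) := Real.log_le_log hx0 (by linarith)
  have h3 := Real.log_le_sub_one_of_pos h1
  have h4 := neg_abs_le (Real.log (x + t0))
  have h5 : 0 ≤ T * x := mul_nonneg hT0 hx
  rw [abs_le]
  constructor
  · nlinarith
  · nlinarith [abs_nonneg (Real.log (x + t0))]

theorem WSL_le {γ t0 s T : ℝ} (hγ : 0 < γ) (ht0 : 0 ≤ t0) (hs : t0 ≤ s) (hT : s ≤ T)
    {x : Fin n → ℝ} (hx : ∀ j, 0 ≤ x j ∧ 0 < x j + t0) :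
    |W γ x * SL s x| ≤ BL ⌈(4 * n : ℕ) * γ⌉₊ t0 T x := by
  have hT0 : 0 ≤ T := ht0.trans (hs.trans hT)
  have hW := W_le hγ (x := x) fun j => (hx j).1
  have hP : 0 ≤ ∏ i, (1 + x i) ^ ⌈(4 * n : ℕ) * γ⌉₊ :=
    Finset.prod_nonneg fun i _ => by have := (hx i).1; positivity
  rw [abs_mul, abs_of_nonneg (W_nonneg γ x)]
  calc W γ x * |SL s x| ≤ (∏ i, (1 + x i) ^ ⌈(4 * n : ℕ) * γ⌉₊) *
        ∑ j, (|Real.log (x j + t0)| + (1 + T) * (1 + x j)) := by
        refine mul_le_mul hW ?_ (abs_nonneg _) hP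
        unfold SL
        refine (Finset.abs_sum_le_sum_abs _ _).trans (Finset.sum_le_sum fun j _ => ?_)
        exact abs_log_le hs hT hT0 (hx j).1 (hx j).2
    _ = _ := by
        unfold BL
        rw [Finset.mul_sum]
        refine Finset.sum_congr rfl fun j _ => ?_
        rw [Finset.prod_mul_distrib, Finset.prod_ite_eq' Finset.univ j]
        simp

theorem WSL_integrable {γ t0 t : ℝ} (hγ : 0 < γ) (h : OkL ν t0) (ht : t0 ≤ t) :
    Integrable (fun x => W γ x * SL (n := n) t x) (Measure.pi fun _ => ν) := by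
  refine (BL_integrable (n := n) h ⌈(4 * n : ℕ) * γ⌉₊ t).mono'
    ((W_measurable γ).mul (SL_measurable t)).aestronglyMeasurable ?_
  filter_upwards [ae_pos h.ok] with x hx
  rw [Real.norm_eq_abs]
  exact WSL_le hγ h.nn ht le_rfl hx

theorem W_integrable {γ t0 : ℝ} (hγ : 0 < γ) (h : OkL ν t0) :
    Integrable (fun x => W (n := n) γ x) (Measure.pi fun _ => ν) := by
  have := Q_integrable (n := n) hγ h.ok (le_refl t0)
  unfold Q at this
  simpa using this

theorem hasDerivAt_SL {t : ℝ} {x : Fin n → ℝ} (hx : ∀ j, 0 < x j + t) :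
    HasDerivAt (fun s => SL s x) (S t x) t := by
  unfold SL S
  refine HasDerivAt.fun_sum fun j _ => ?_
  have h : HasDerivAt (fun s => x j + s) 1 t := (hasDerivAt_id t).const_add (x j)
  exact h.log (hx j).ne'

theorem hasDerivAt_intL {γ t0 : ℝ} (hγ : 0 < γ) (h : OkL ν t0) {t : ℝ} (ht : t0 < t) :
    HasDerivAt (fun s => ∫ x, W γ x * SL (n := n) s x ∂(Measure.pi fun _ => ν))
      (∫ x, W γ x * S (n := n) t x ∂(Measure.pi fun _ => ν)) t := by
  have ht00 := h.nn
  have ht1 : 0 < t := lt_of_le_of_lt h.nn ht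
  set δ := (t0 + t) / 2 with hδ
  have hδ0 : 0 < δ := by rw [hδ]; linarith
  have hs : Set.Ioo δ (2 * t) ∈ nhds t := Ioo_mem_nhds (by rw [hδ]; linarith) (by linarith)
  refine (hasDerivAt_integral_of_dominated_loc_of_deriv_le
    (F' := fun s x => W γ x * S s x)
    (bound := fun x => (n * (1 / δ)) * W γ x)
    hs ?_ (WSL_integrable hγ h ht.le) ?_ ?_ ((W_integrable hγ h).const_mul _) ?_).2
  · exact Filter.Eventually.of_forall fun s =>
      ((W_measurable γ).mul (SL_measurable s)).aestronglyMeasurable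
  · exact ((W_measurable γ).mul (S_measurable t)).aestronglyMeasurable
  · filter_upwards [ae_pos h.ok] with x hx s hs
    have hs0 : 0 < s := by linarith [hs.1]
    have h2 := S_le hs0 fun j => (hx j).1
    have h3 := S_nonneg hs0 fun j => (hx j).1
    have h5 : (1 : ℝ) / s ≤ 1 / δ := one_div_le_one_div_of_le hδ0 hs.1.le
    rw [norm_mul, Real.norm_of_nonneg (W_nonneg γ x), Real.norm_of_nonneg h3, mul_comm]
    refine mul_le_mul_of_nonneg_right (h2.trans ?_) (W_nonneg γ x)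
    exact mul_le_mul_of_nonneg_left h5 (Nat.cast_nonneg n)
  · filter_upwards [ae_pos h.ok] with x hx s hs
    exact (hasDerivAt_SL fun j => by linarith [(hx j).1, hs.1]).const_mul (W γ x)

theorem continuousOn_intL {γ t0 : ℝ} (hγ : 0 < γ) (h : OkL ν t0) :
    ContinuousOn (fun s => ∫ x, W γ x * SL (n := n) s x ∂(Measure.pi fun _ => ν))
      (Set.Ici t0) := by
  intro t ht
  have ht0 : t0 ≤ t := ht
  have hev : ∀ᶠ s in nhdsWithin t (Set.Ici t0), t0 ≤ s ∧ s ≤ t + 1 := by
    have h1 : ∀ᶠ s in nhdsWithin t (Set.Ici t0), s ∈ Set.Ici t0 := self_mem_nhdsWithin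
    have h2 : ∀ᶠ s in nhdsWithin t (Set.Ici t0), s < t + 1 :=
      nhdsWithin_le_nhds (Iio_mem_nhds (by linarith))
    filter_upwards [h1, h2] with s hs1 hs2
    exact ⟨hs1, hs2.le⟩
  refine continuousWithinAt_of_dominated
    (bound := BL ⌈(4 * n : ℕ) * γ⌉₊ t0 (t + 1)) ?_ ?_ (BL_integrable h _ _) ?_
  · exact Filter.Eventually.of_forall fun s =>
      ((W_measurable γ).mul (SL_measurable s)).aestronglyMeasurable
  · filter_upwards [hev] with s hs
    filter_upwards [ae_pos h.ok] with x hx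
    rw [Real.norm_eq_abs]
    exact WSL_le hγ h.nn hs.1 hs.2 hx
  · filter_upwards [ae_pos h.ok] with x hx
    have : ContinuousAt (fun s => W γ x * SL s x) t :=
      ((hasDerivAt_SL fun j => by linarith [(hx j).2]).const_mul (W γ x)).continuousAt
    exact this.continuousWithinAt

end Pool.Agent.Y705.BE
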