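import Pool.Agent.Y705.BE.Defs
import Pool.Agent.Y705.BE.Log

set_option autoImplicit false

/-!
# From admissibility to the technical conditions `Ok`, `OkL`
-/

namespace Pool.Agent.Y705.BE

open MeasureTheory Finset
open scoped ENNReal
open Pool.Agent.Helper575

variable {n : ℕ} {ν : Measure ℝ} [IsFiniteMeasure ν]

theorem vdm_eq (β : ℝ) (x : Fin n → ℝ) : vdm n β x = W (β / 2) x := by
  unfold vdm W FKG.V
  rw [← Real.finset_prod_rpow _ _ fun i _ => Finset.prod_nonneg fun j _ => sq_nonneg _]
  refine Finset.prod_congr rfl fun k _ => ?_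
  rw [← Real.finset_prod_rpow _ _ fun j _ => sq_nonneg _]
  refine Finset.prod_congr rfl fun j _ => ?_
  rw [← sq_abs, ← Real.rpow_natCast, ← Real.rpow_mul (abs_nonneg _)]
  congr 1
  push_cast
  ring

theorem mom {hn : Adm n ν} (m : ℕ) : Integrable (fun x : ℝ => (1 + x) ^ m) ν := by
  have e : (fun x : ℝ => (1 + x) ^ m) =
      fun x => ∑ k ∈ range (m + 1), ((m.choose k : ℕ) : ℝ) * x ^ k := by
    funext x
    rw [add_comm 1 x, add_pow]
    refine Finset.sum_congr rfl fun k _ => ?_
    ring
  rw [e]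
  exact integrable_finsetSum _ fun k _ => (hn.moments k).const_mul _

omit [IsFiniteMeasure ν] in
theorem ae_nonneg (hn : Adm n ν) : ∀ᵐ x ∂ν, 0 ≤ x := by
  rw [ae_iff]
  refine measure_mono_null (fun x hx => ?_) hn.nonneg
  have : ¬ (0 ≤ x) := hx
  exact not_le.1 this

omit [IsFiniteMeasure ν] in
theorem ae_pos0 (hn : Adm n ν) (h0 : ν {0} = 0) : ∀ᵐ x ∂ν, 0 < x := by
  have h1 : ∀ᵐ x ∂ν, x ≠ 0 := by
    rw [ae_iff]
    refine measure_mono_null (fun x hx => ?_) h0
    have : ¬ (x ≠ 0) := hx
    simpa using this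
  filter_upwards [ae_nonneg hn, h1] with x hx hx'
  exact lt_of_le_of_ne hx hx'.symm

theorem ok_pos (hn : Adm n ν) (a : ℝ) {t0 : ℝ} (ht0 : 0 < t0) : Ok ν a t0 := by
  refine ⟨ht0.le, ?_, fun m => ?_⟩
  · filter_upwards [ae_nonneg hn] with x hx
    exact ⟨hx, by linarith⟩
  · refine ((mom (hn := hn) m).const_mul (t0 ^ (min a 0))).mono' ?_ ?_
    · have h : Measurable (fun x : ℝ => x + t0) := by fun_prop
      have h2 : Measurable (fun x : ℝ => (1 + x) ^ m) := by fun_prop
      exact (h2.mul (h.pow_const _)).aestronglyMeasurable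
    · filter_upwards [ae_nonneg hn] with x hx
      have h1 : 0 ≤ (x + t0) ^ (min a 0) := Real.rpow_nonneg (by linarith) _
      have h2 : (x + t0) ^ (min a 0) ≤ t0 ^ (min a 0) :=
        Real.rpow_le_rpow_of_nonpos ht0 (by linarith) (min_le_right _ _)
      rw [Real.norm_of_nonneg (by positivity), mul_comm (t0 ^ (min a 0))]
      exact mul_le_mul_of_nonneg_left h2 (by positivity)

theorem okL_pos (hn : Adm n ν) {t0 : ℝ} (ht0 : 0 < t0) : OkL ν t0 := by
  refine ⟨ht0.le, (ok_pos hn 0 ht0).pos, fun m => mom (hn := hn) m, fun m => ?_⟩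
  refine ((mom (hn := hn) (m + 1)).const_mul (|Real.log t0| + t0 + 1)).mono' ?_ ?_
  · have h : Measurable (fun x : ℝ => x + t0) := by fun_prop
    have h2 : Measurable (fun x : ℝ => (1 + x) ^ m) := by fun_prop
    exact (h2.mul (Real.measurable_log.comp h).abs).aestronglyMeasurable
  · filter_upwards [ae_nonneg hn] with x hx
    have h1 : |Real.log (x + t0)| ≤ |Real.log t0| + (x + t0) := by
      have h2 : Real.log t0 ≤ Real.log (x + t0) := Real.log_le_log ht0 (by linarith)
      have h3 := Real.log_le_sub_one_of_pos (show 0 < x + t0 by linarith)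
      have h4 := neg_abs_le (Real.log t0)
      rw [abs_le]
      constructor
      · linarith
      · linarith [abs_nonneg (Real.log t0)]
    have h5 : |Real.log t0| + (x + t0) ≤ (|Real.log t0| + t0 + 1) * (1 + x) := by
      nlinarith [mul_nonneg (abs_nonneg (Real.log t0)) hx, mul_nonneg ht0.le hx]
    rw [Real.norm_of_nonneg (by positivity)]
    calc (1 + x) ^ m * |Real.log (x + t0)|
        ≤ (1 + x) ^ m * ((|Real.log t0| + t0 + 1) * (1 + x)) :=
          mul_le_mul_of_nonneg_left (h1.trans h5) (by positivity)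
      _ = _ := by ring

theorem ok_zero (hn : Adm n ν) {a : ℝ} (h0 : Near0 ν a) : Ok ν a 0 := by
  refine ⟨le_refl 0, ?_, fun m => ?_⟩
  · filter_upwards [ae_pos0 hn h0.atom] with x hx
    exact ⟨hx.le, by linarith⟩
  · rcases lt_or_ge a 0 with ha | ha
    · rw [min_eq_left ha.le]
      refine (((h0.neg ha).const_mul (2 ^ m)).add (mom (hn := hn) m)).mono' ?_ ?_
      · have h : Measurable (fun x : ℝ => x + 0) := by fun_prop
        have h2 : Measurable (fun x : ℝ => (1 + x) ^ m) := by fun_prop
        exact (h2.mul (h.pow_const _)).aestronglyMeasurable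
      · filter_upwards [ae_pos0 hn h0.atom] with x hx
        have h1 : 0 < x ^ a := Real.rpow_pos_of_pos hx _
        rw [add_zero, Real.norm_of_nonneg (by positivity)]
        simp only [Pi.add_apply]
        rcases le_total x 1 with hx1 | hx1
        · have h2 : (1 + x) ^ m ≤ 2 ^ m := pow_le_pow_left₀ (by linarith) (by linarith) m
          have h3 : 0 ≤ (1 + x) ^ m := by positivity
          nlinarith [mul_le_mul_of_nonneg_right h2 h1.le]
        · have h2 : x ^ a ≤ 1 := Real.rpow_le_one_of_one_le_of_nonpos hx1 ha.le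
          have h3 : 0 ≤ (1 + x) ^ m := by positivity
          have h4 : (0:ℝ) < 2 ^ m := by positivity
          nlinarith [mul_le_mul_of_nonneg_left h2 h3, mul_pos h4 h1]
    · rw [min_eq_right ha]
      simpa using mom (hn := hn) m

theorem okL_zero (hn : Adm n ν) (h0 : Near0 ν 0) : OkL ν 0 := by
  refine ⟨le_refl 0, (ok_zero hn h0).pos, fun m => mom (hn := hn) m, fun m => ?_⟩
  refine ((((h0.zero rfl).abs).const_mul (2 ^ m)).add (mom (hn := hn) (m + 1))).mono' ?_ ?_
  · have h : Measurable (fun x : ℝ => x + 0) := by fun_prop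
    have h2 : Measurable (fun x : ℝ => (1 + x) ^ m) := by fun_prop
    exact (h2.mul (Real.measurable_log.comp h).abs).aestronglyMeasurable
  · filter_upwards [ae_pos0 hn h0.atom] with x hx
    rw [add_zero, Real.norm_of_nonneg (by positivity)]
    simp only [Pi.add_apply]
    rcases le_total x 1 with hx1 | hx1
    · have h2 : (1 + x) ^ m ≤ 2 ^ m := pow_le_pow_left₀ (by linarith) (by linarith) m
      have h3 : 0 ≤ (1 + x) ^ (m + 1) := by positivity
      nlinarith [mul_le_mul_of_nonneg_right h2 (abs_nonneg (Real.log x))]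
    · have h2 : |Real.log x| ≤ 1 + x := by
        rw [abs_of_nonneg (Real.log_nonneg hx1)]
        have := Real.log_le_sub_one_of_pos hx
        linarith
      have h3 : 0 ≤ (1 + x) ^ m := by positivity
      have h4 : (0:ℝ) < 2 ^ m := by positivity
      have h5 := mul_le_mul_of_nonneg_left h2 h3
      have h6 : (1 + x) ^ m * (1 + x) = (1 + x) ^ (m + 1) := (pow_succ _ _).symm
      nlinarith [mul_nonneg h4.le (abs_nonneg (Real.log x))]

end Pool.Agent.Y705.BE
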