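import Pool.Agent.Helper575.FKG

set_option autoImplicit false

/-!
# Four functions theorem for powers of a measure on the line, and an FKG inequality for
# symmetric functions with respect to `|Δ(x)|^β ∏ ρ(x_i) dν(x_i)`
-/

namespace Pool.Agent.Y705.BE

open MeasureTheory Finset
open scoped ENNReal
open Pool.Agent.Helper575

/-- The four functions theorem on `ℝ^n` with the product measure `ν^n`. -/
theorem ffpi (ν : Measure ℝ) [SigmaFinite ν] (n : ℕ) : ∀ (f1 f2 f3 f4 : (Fin n → ℝ) → ℝ≥0∞),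
    Measurable f1 → Measurable f2 → Measurable f3 → Measurable f4 →
    (∀ x y, f1 x * f2 y ≤ f3 (x ⊔ y) * f4 (x ⊓ y)) →
    (∫⁻ x, f1 x ∂(Measure.pi fun _ => ν)) * (∫⁻ x, f2 x ∂(Measure.pi fun _ => ν)) ≤
      (∫⁻ x, f3 x ∂(Measure.pi fun _ => ν)) * (∫⁻ x, f4 x ∂(Measure.pi fun _ => ν)) := by
  induction n with
  | zero =>
    intro f1 f2 f3 f4 h1 h2 h3 h4 h
    have hv : (Measure.pi (fun _ : Fin 0 => ν)) Set.univ = 1 := by
      rw [Measure.pi_of_empty]
      simp
    rw [lintegral_unique, lintegral_unique, lintegral_unique, lintegral_unique, hv]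
    simp only [mul_one]
    have key : ∀ z w : Fin 0 → ℝ, f1 z * f2 z ≤ f3 w * f4 w := by
      intro z w
      rw [Subsingleton.elim w z]
      have := h z z
      rwa [sup_idem, inf_idem] at this
    exact key _ _
  | succ n ih =>
    intro f1 f2 f3 f4 h1 h2 h3 h4 h
    have hcons : ∀ p : ℝ × (Fin n → ℝ),
        (MeasurableEquiv.piFinSuccAbove (fun _ : Fin (n + 1) => ℝ) 0).symm p =
          (Fin.cons p.1 p.2 : Fin (n + 1) → ℝ) := by
      intro p
      ext i
      refine Fin.cases ?_ (fun j => ?_) i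
      · simp [MeasurableEquiv.piFinSuccAbove_symm_apply, Fin.insertNthEquiv]
      · simp [MeasurableEquiv.piFinSuccAbove_symm_apply, Fin.insertNthEquiv]
    have hmp := (measurePreserving_piFinSuccAbove (fun _ : Fin (n + 1) => ν) 0).symm
    have meas : ∀ f : (Fin (n + 1) → ℝ) → ℝ≥0∞, Measurable f →
        Measurable (fun p : ℝ × (Fin n → ℝ) => f (Fin.cons p.1 p.2)) := by
      intro f hf
      have := hf.comp hmp.measurable
      have e : (f ∘ ⇑(MeasurableEquiv.piFinSuccAbove (fun _ : Fin (n + 1) => ℝ) 0).symm) =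
          fun p : ℝ × (Fin n → ℝ) => f (Fin.cons p.1 p.2) := by
        ext p
        rw [Function.comp_apply, hcons p]
      rwa [e] at this
    have split : ∀ f : (Fin (n + 1) → ℝ) → ℝ≥0∞, Measurable f →
        ∫⁻ x, f x ∂(Measure.pi fun _ => ν) =
          ∫⁻ a : ℝ, ∫⁻ z : Fin n → ℝ, f (Fin.cons a z) ∂(Measure.pi fun _ => ν) ∂ν := by
      intro f hf
      rw [← hmp.lintegral_comp hf]
      simp_rw [hcons]
      rw [lintegral_prod _ (meas f hf).aemeasurable]
    rw [split f1 h1, split f2 h2, split f3 h3, split f4 h4]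
    refine FF.ff_one ν _ _ _ _ (meas f1 h1).lintegral_prod_right' (meas f2 h2).lintegral_prod_right'
      (meas f3 h3).lintegral_prod_right' (meas f4 h4).lintegral_prod_right' ?_
    intro a b
    refine ih _ _ _ _ ((meas f1 h1).comp measurable_prodMk_left)
      ((meas f2 h2).comp measurable_prodMk_left) ((meas f3 h3).comp measurable_prodMk_left)
      ((meas f4 h4).comp measurable_prodMk_left) ?_
    intro x y
    have := h (Fin.cons a x) (Fin.cons b y)
    convert this using 2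
    · congr 1
      ext i
      refine Fin.cases ?_ (fun j => ?_) i <;> simp
    · congr 1
      ext i
      refine Fin.cases ?_ (fun j => ?_) i <;> simp

variable {n : ℕ}

/-- Symmetrisation. -/
theorem symm_lintegral (ν : Measure ℝ) [SigmaFinite ν] (φ : (Fin n → ℝ) → ℝ≥0∞) (hφ : Measurable φ)
    (hsym : ∀ (σ : Equiv.Perm (Fin n)) x, φ (x ∘ σ) = φ x)
    (hinj : ∀ x, ¬ Function.Injective x → φ x = 0) :
    ∫⁻ x, φ x ∂(Measure.pi fun _ => ν) =
      (n.factorial : ℝ≥0∞) * ∫⁻ x, {x : Fin n → ℝ | Monotone x}.indicator φ x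
        ∂(Measure.pi fun _ => ν) := by
  classical
  have h1 : ∀ x, φ x = ∑ σ : Equiv.Perm (Fin n),
      {x : Fin n → ℝ | Monotone x}.indicator φ (x ∘ σ) := by
    intro x
    by_cases hx : Function.Injective x
    · rw [Finset.sum_eq_single (Tuple.sort x)]
      · rw [Set.indicator_of_mem (show x ∘ Tuple.sort x ∈ {x : Fin n → ℝ | Monotone x} from
          Tuple.monotone_sort x), hsym]
      · intro σ _ hσ
        refine Set.indicator_of_notMem ?_ _
        intro hmon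
        apply hσ
        have := Tuple.unique_monotone (show Monotone (x ∘ σ) from hmon) (Tuple.monotone_sort x)
        ext i
        exact congrArg _ (hx (congrFun this i))
      · intro h; exact absurd (Finset.mem_univ _) h
    · rw [hinj x hx]
      symm
      refine Finset.sum_eq_zero fun σ _ => ?_
      have : φ (x ∘ σ) = 0 := by rw [hsym, hinj x hx]
      by_cases hm : x ∘ σ ∈ {x : Fin n → ℝ | Monotone x}
      · rw [Set.indicator_of_mem hm, this]
      · rw [Set.indicator_of_notMem hm]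
  have hmi : Measurable ({x : Fin n → ℝ | Monotone x}.indicator φ) :=
    hφ.indicator FKG.measurableSet_monotone
  have hmp : ∀ σ : Equiv.Perm (Fin n), MeasurePreserving (fun x : Fin n → ℝ => x ∘ σ)
      (Measure.pi fun _ => ν) (Measure.pi fun _ => ν) := by
    intro σ
    have h := measurePreserving_piCongrLeft (fun _ : Fin n => ν) σ.symm
    have e : (fun x : Fin n → ℝ => x ∘ σ) =
        (MeasurableEquiv.piCongrLeft (fun _ : Fin n => ℝ) σ.symm) := by
      funext x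
      funext i
      simp [MeasurableEquiv.coe_piCongrLeft, Equiv.piCongrLeft_apply]
    rw [e]
    exact h
  calc ∫⁻ x, φ x ∂(Measure.pi fun _ => ν) = ∫⁻ x, ∑ σ : Equiv.Perm (Fin n),
        {x : Fin n → ℝ | Monotone x}.indicator φ (x ∘ σ) ∂(Measure.pi fun _ => ν) :=
          lintegral_congr h1
    _ = ∑ σ : Equiv.Perm (Fin n), ∫⁻ x, {x : Fin n → ℝ | Monotone x}.indicator φ (x ∘ σ)
          ∂(Measure.pi fun _ => ν) :=
        lintegral_finsetSum _ fun σ _ => hmi.comp (hmp σ).measurable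
    _ = ∑ σ : Equiv.Perm (Fin n), ∫⁻ x, {x : Fin n → ℝ | Monotone x}.indicator φ x
          ∂(Measure.pi fun _ => ν) := by
        refine Finset.sum_congr rfl fun σ _ => ?_
        exact (hmp σ).lintegral_comp hmi
    _ = _ := by
        rw [Finset.sum_const, Finset.card_univ, Fintype.card_perm, Fintype.card_fin, nsmul_eq_mul]

/-- `|Δ(x)|^(2γ)` -/
noncomputable def W (γ : ℝ) (x : Fin n → ℝ) : ℝ := FKG.V x ^ γ

theorem W_nonneg (γ : ℝ) (x : Fin n → ℝ) : 0 ≤ W γ x := Real.rpow_nonneg (FKG.V_nonneg x) _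

theorem W_measurable (γ : ℝ) : Measurable (W γ : (Fin n → ℝ) → ℝ) :=
  FKG.V_measurable.pow_const γ

/-- the weighted integrand, supported on the closed positive orthant -/
noncomputable def wt (γ : ℝ) (ρ : ℝ → ℝ) (f : (Fin n → ℝ) → ℝ) (x : Fin n → ℝ) : ℝ≥0∞ :=
  (Set.Ici (0 : Fin n → ℝ)).indicator
    (fun x => ENNReal.ofReal (W γ x * (∏ i, ρ (x i)) * f x)) x

theorem wt_measurable (γ : ℝ) {ρ : ℝ → ℝ} (hρ : Measurable ρ) {f : (Fin n → ℝ) → ℝ}
    (hf : Measurable f) : Measurable (wt (n := n) γ ρ f) := by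
  refine Measurable.indicator ?_ measurableSet_Ici
  refine ENNReal.measurable_ofReal.comp ?_
  refine ((W_measurable γ).mul (Finset.measurable_prod _ fun i _ => ?_)).mul hf
  exact hρ.comp (measurable_pi_apply i)

theorem wt_symm (γ : ℝ) (ρ : ℝ → ℝ) {f : (Fin n → ℝ) → ℝ}
    (hf : ∀ (σ : Equiv.Perm (Fin n)) x, f (x ∘ σ) = f x) (σ : Equiv.Perm (Fin n)) (x : Fin n → ℝ) :
    wt γ ρ f (x ∘ σ) = wt γ ρ f x := by
  unfold wt
  have hmem : (x ∘ σ ∈ Set.Ici (0 : Fin n → ℝ)) ↔ (x ∈ Set.Ici (0 : Fin n → ℝ)) := by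
    simp only [Set.mem_Ici, Pi.le_def, Pi.zero_apply, Function.comp_apply]
    exact ⟨fun h i => by simpa using h (σ.symm i), fun h i => h (σ i)⟩
  by_cases hx : x ∈ Set.Ici (0 : Fin n → ℝ)
  · rw [Set.indicator_of_mem hx, Set.indicator_of_mem (hmem.2 hx), W, FKG.V_perm, hf]
    congr 3
    exact Equiv.prod_comp σ (fun i => ρ (x i))
  · rw [Set.indicator_of_notMem hx, Set.indicator_of_notMem (fun h => hx (hmem.1 h))]

theorem wt_inj {γ : ℝ} (hγ : 0 < γ) (ρ : ℝ → ℝ) (f : (Fin n → ℝ) → ℝ) (x : Fin n → ℝ)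
    (hx : ¬ Function.Injective x) : wt γ ρ f x = 0 := by
  unfold wt
  by_cases hm : x ∈ Set.Ici (0 : Fin n → ℝ)
  · rw [Set.indicator_of_mem hm, W, FKG.V_zero hx, Real.zero_rpow hγ.ne']; simp
  · rw [Set.indicator_of_notMem hm]

/-- FKG inequality for symmetric increasing functions with a power of the Vandermonde weight. -/
theorem fkg (ν : Measure ℝ) [SigmaFinite ν] {γ : ℝ} (hγ : 0 < γ) {ρ : ℝ → ℝ} (hρ : Measurable ρ)
    (hρ0 : ∀ x, 0 ≤ x → 0 ≤ ρ x)
    {f g : (Fin n → ℝ) → ℝ} (hf : Measurable f) (hg : Measurable g)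
    (hfs : ∀ (σ : Equiv.Perm (Fin n)) x, f (x ∘ σ) = f x)
    (hgs : ∀ (σ : Equiv.Perm (Fin n)) x, g (x ∘ σ) = g x)
    (hf0 : ∀ x, 0 ≤ x → 0 ≤ f x) (hg0 : ∀ x, 0 ≤ x → 0 ≤ g x)
    (hfm : ∀ x y, 0 ≤ x → x ≤ y → f x ≤ f y) (hgm : ∀ x y, 0 ≤ x → x ≤ y → g x ≤ g y) :
    (∫⁻ x, wt (n := n) γ ρ f x ∂(Measure.pi fun _ => ν)) *
        (∫⁻ x, wt γ ρ g x ∂(Measure.pi fun _ => ν)) ≤
      (∫⁻ x, wt γ ρ (fun x => f x * g x) x ∂(Measure.pi fun _ => ν)) *
        (∫⁻ x, wt (n := n) γ ρ (fun _ => 1) x ∂(Measure.pi fun _ => ν)) := by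
  set C := {x : Fin n → ℝ | Monotone x} with hC
  have hfg : Measurable (fun x => f x * g x) := hf.mul hg
  have hfgs : ∀ (σ : Equiv.Perm (Fin n)) x, f (x ∘ σ) * g (x ∘ σ) = f x * g x := by
    intro σ x; rw [hfs, hgs]
  have h1 := symm_lintegral ν _ (wt_measurable γ hρ hf) (wt_symm γ ρ hfs) (wt_inj hγ ρ f)
  have h2 := symm_lintegral ν _ (wt_measurable γ hρ hg) (wt_symm γ ρ hgs) (wt_inj hγ ρ g)
  have h3 := symm_lintegral ν _ (wt_measurable γ hρ hfg) (wt_symm γ ρ hfgs) (wt_inj hγ ρ _)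
  have h4 := symm_lintegral ν _ (wt_measurable (n := n) γ hρ (measurable_const (a := (1 : ℝ))))
    (wt_symm γ ρ (fun _ _ => rfl)) (wt_inj hγ ρ _)
  rw [h1, h2, h3, h4]
  have key : (∫⁻ x, C.indicator (wt γ ρ f) x ∂(Measure.pi fun _ => ν)) *
        (∫⁻ x, C.indicator (wt γ ρ g) x ∂(Measure.pi fun _ => ν)) ≤
      (∫⁻ x, C.indicator (wt γ ρ (fun x => f x * g x)) x ∂(Measure.pi fun _ => ν)) *
        (∫⁻ x, C.indicator (wt (n := n) γ ρ (fun _ => 1)) x ∂(Measure.pi fun _ => ν)) := by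
    refine ffpi ν n _ _ _ _ ((wt_measurable γ hρ hf).indicator FKG.measurableSet_monotone)
      ((wt_measurable γ hρ hg).indicator FKG.measurableSet_monotone)
      ((wt_measurable γ hρ hfg).indicator FKG.measurableSet_monotone)
      ((wt_measurable γ hρ measurable_const).indicator FKG.measurableSet_monotone) ?_
    intro x y
    by_cases hx : x ∈ C ∧ x ∈ Set.Ici (0 : Fin n → ℝ)
    swap
    · have : C.indicator (wt γ ρ f) x = 0 := by
        rw [Set.indicator_apply]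
        split_ifs with hxC
        · unfold wt
          exact Set.indicator_of_notMem (fun h => hx ⟨hxC, h⟩) _
        · rfl
      rw [this, zero_mul]; exact zero_le
    by_cases hy : y ∈ C ∧ y ∈ Set.Ici (0 : Fin n → ℝ)
    swap
    · have : C.indicator (wt γ ρ g) y = 0 := by
        rw [Set.indicator_apply]
        split_ifs with hyC
        · unfold wt
          exact Set.indicator_of_notMem (fun h => hy ⟨hyC, h⟩) _
        · rfl
      rw [this, mul_zero]; exact zero_le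
    have hxm : Monotone x := hx.1
    have hym : Monotone y := hy.1
    have hx0 : 0 ≤ x := hx.2
    have hy0 : 0 ≤ y := hy.2
    have hsC : x ⊔ y ∈ C := fun i j hij => sup_le_sup (hxm hij) (hym hij)
    have hiC : x ⊓ y ∈ C := fun i j hij => inf_le_inf (hxm hij) (hym hij)
    have hs0 : 0 ≤ x ⊔ y := hx0.trans le_sup_left
    have hi0 : 0 ≤ x ⊓ y := le_inf hx0 hy0
    rw [Set.indicator_of_mem hx.1, Set.indicator_of_mem hy.1, Set.indicator_of_mem hsC,
      Set.indicator_of_mem hiC]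
    unfold wt
    rw [Set.indicator_of_mem hx.2, Set.indicator_of_mem hy.2,
      Set.indicator_of_mem (show x ⊔ y ∈ Set.Ici (0 : Fin n → ℝ) from hs0),
      Set.indicator_of_mem (show x ⊓ y ∈ Set.Ici (0 : Fin n → ℝ) from hi0)]
    have pr : ∀ z : Fin n → ℝ, 0 ≤ z → 0 ≤ ∏ i, ρ (z i) :=
      fun z hz => Finset.prod_nonneg fun i _ => hρ0 _ (hz i)
    rw [← ENNReal.ofReal_mul (mul_nonneg (mul_nonneg (W_nonneg γ _) (pr x hx0)) (hf0 x hx0)),
      ← ENNReal.ofReal_mul (mul_nonneg (mul_nonneg (W_nonneg γ _) (pr _ hs0))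
        (mul_nonneg (hf0 _ hs0) (hg0 _ hs0)))]
    refine ENNReal.ofReal_le_ofReal ?_
    have e1 : W γ x * W γ y ≤ W γ (x ⊔ y) * W γ (x ⊓ y) := by
      unfold W
      rw [← Real.mul_rpow (FKG.V_nonneg _) (FKG.V_nonneg _),
        ← Real.mul_rpow (FKG.V_nonneg _) (FKG.V_nonneg _)]
      exact Real.rpow_le_rpow (mul_nonneg (FKG.V_nonneg _) (FKG.V_nonneg _))
        (FKG.V_sup_inf hxm hym) hγ.le
    have e2 := FKG.prod_sup_inf ρ x y
    have e3 : f x * g y ≤ f (x ⊔ y) * g (x ⊔ y) :=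
      mul_le_mul (hfm _ _ hx0 le_sup_left) (hgm _ _ hy0 le_sup_right) (hg0 _ hy0) (hf0 _ hs0)
    calc W γ x * (∏ i, ρ (x i)) * f x * (W γ y * (∏ i, ρ (y i)) * g y)
        = (W γ x * W γ y) * ((∏ i, ρ (x i)) * (∏ i, ρ (y i))) * (f x * g y) := by ring
      _ ≤ (W γ (x ⊔ y) * W γ (x ⊓ y)) * ((∏ i, ρ ((x ⊔ y) i)) * ∏ i, ρ ((x ⊓ y) i)) *
          (f (x ⊔ y) * g (x ⊔ y)) := by
          rw [e2]
          refine mul_le_mul (mul_le_mul_of_nonneg_right e1 (mul_nonneg (pr _ hs0) (pr _ hi0))) e3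
            (mul_nonneg (hf0 _ hx0) (hg0 _ hy0)) ?_
          exact mul_nonneg (mul_nonneg (W_nonneg γ _) (W_nonneg γ _))
            (mul_nonneg (pr _ hs0) (pr _ hi0))
      _ = _ := by ring
  calc (n.factorial : ℝ≥0∞) * (∫⁻ x, C.indicator (wt γ ρ f) x ∂(Measure.pi fun _ => ν)) *
        ((n.factorial : ℝ≥0∞) * ∫⁻ x, C.indicator (wt γ ρ g) x ∂(Measure.pi fun _ => ν))
      = ((n.factorial : ℝ≥0∞) * (n.factorial : ℝ≥0∞)) *
        ((∫⁻ x, C.indicator (wt γ ρ f) x ∂(Measure.pi fun _ => ν)) *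
          (∫⁻ x, C.indicator (wt γ ρ g) x ∂(Measure.pi fun _ => ν))) := by ring
    _ ≤ ((n.factorial : ℝ≥0∞) * (n.factorial : ℝ≥0∞)) *
        ((∫⁻ x, C.indicator (wt γ ρ (fun x => f x * g x)) x ∂(Measure.pi fun _ => ν)) *
        (∫⁻ x, C.indicator (wt (n := n) γ ρ (fun _ => 1)) x ∂(Measure.pi fun _ => ν))) := by gcongr
    _ = _ := by ring

end Pool.Agent.Y705.BE
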