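import Pool.Agent.Y705.BE.FF
import Pool.Agent.Helper575.Lag2

set_option autoImplicit false

/-!
# Integrals of `|Δ(x)|^(2γ) ∏ (x_j + t)^a` against a product measure: bounds and derivatives
-/

namespace Pool.Agent.Y705.BE

open MeasureTheory Finset
open scoped ENNReal
open Pool.Agent.Helper575
open Pool.Agent.Helper575.Lag (S S_measurable)

variable {n : ℕ}

/-- weight times power product -/
noncomputable def Q (γ a t : ℝ) (x : Fin n → ℝ) : ℝ := W γ x * ∏ j, (x j + t) ^ a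

/-- hypotheses on the one-body measure, for the range `t ≥ t0` -/
structure Ok (ν : Measure ℝ) (a t0 : ℝ) : Prop where
  nn : 0 ≤ t0
  pos : ∀ᵐ x ∂ν, 0 ≤ x ∧ 0 < x + t0
  int : ∀ m : ℕ, Integrable (fun x => (1 + x) ^ m * (x + t0) ^ (min a 0)) ν

variable {ν : Measure ℝ} [IsFiniteMeasure ν]

theorem ae_pos {a t0 : ℝ} (h : Ok ν a t0) :
    ∀ᵐ x ∂(Measure.pi fun _ : Fin n => ν), ∀ j, 0 ≤ x j ∧ 0 < x j + t0 := by
  rw [ae_all_iff]
  intro j
  exact (Measure.tendsto_eval_ae_ae (μ := fun _ : Fin n => ν) (i := j)).eventually h.pos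

noncomputable def b (K L : ℕ) (a t0 T x : ℝ) : ℝ :=
  (1 + T) ^ L * ((1 + x) ^ (K + L) * (x + t0) ^ (min a 0))

noncomputable def B (K L : ℕ) (a t0 T : ℝ) (x : Fin n → ℝ) : ℝ := ∏ j, b K L a t0 T (x j)

theorem B_integrable {a t0 : ℝ} (h : Ok ν a t0) (K L : ℕ) (T : ℝ) :
    Integrable (B K L a t0 T) (Measure.pi fun _ : Fin n => ν) := by
  unfold B
  exact Integrable.fintype_prod (f := fun _ : Fin n => b K L a t0 T)
    fun _ => (h.int (K + L)).const_mul _

theorem V_le {x : Fin n → ℝ} (hx : ∀ j, 0 ≤ x j) : FKG.V x ≤ ∏ j, (1 + x j) ^ (4 * n) := by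
  have h1 : ∀ i, (1 : ℝ) ≤ 1 + x i := fun i => by linarith [hx i]
  have h2 : ∀ i j, (x j - x i) ^ 2 ≤ ((1 + x i) * (1 + x j)) ^ 2 := by
    intro i j
    have hi := hx i
    have hj := hx j
    rw [← sq_abs]
    refine pow_le_pow_left₀ (abs_nonneg _) ?_ 2
    rw [abs_le]
    constructor <;> nlinarith [mul_nonneg hi hj]
  calc FKG.V x ≤ ∏ i, ∏ j ∈ Ioi i, ((1 + x i) * (1 + x j)) ^ 2 :=
        Finset.prod_le_prod (fun i _ => Finset.prod_nonneg fun j _ => sq_nonneg _) fun i _ =>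
          Finset.prod_le_prod (fun j _ => sq_nonneg _) fun j _ => h2 i j
    _ ≤ ∏ i, ∏ j, ((1 + x i) * (1 + x j)) ^ 2 := by
        refine Finset.prod_le_prod (fun i _ => Finset.prod_nonneg fun j _ => sq_nonneg _) fun i _ => ?_
        refine Finset.prod_le_prod_of_subset_of_one_le (Finset.subset_univ _)
          (fun j _ => sq_nonneg _) fun j _ _ => ?_
        exact one_le_pow₀ (one_le_mul_of_one_le_of_one_le (h1 i) (h1 j))
    _ = ∏ j, (1 + x j) ^ (4 * n) := by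
        simp_rw [mul_pow, Finset.prod_mul_distrib, Finset.prod_const, Finset.card_univ,
          Fintype.card_fin]
        rw [← Finset.prod_pow, ← Finset.prod_mul_distrib]
        refine Finset.prod_congr rfl fun i _ => ?_
        rw [← pow_mul, ← pow_add]
        congr 1; ring

theorem W_le {γ : ℝ} (hγ : 0 < γ) {x : Fin n → ℝ} (hx : ∀ j, 0 ≤ x j) :
    W γ x ≤ ∏ j, (1 + x j) ^ ⌈(4 * n : ℕ) * γ⌉₊ := by
  unfold W
  calc FKG.V x ^ γ ≤ (∏ j, (1 + x j) ^ (4 * n)) ^ γ :=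
        Real.rpow_le_rpow (FKG.V_nonneg _) (V_le hx) hγ.le
    _ = ∏ j, ((1 + x j) ^ (4 * n)) ^ γ := by
        rw [Real.finset_prod_rpow]
        intro j _
        have := hx j
        positivity
    _ ≤ _ := by
        refine Finset.prod_le_prod (fun j _ => ?_) fun j _ => ?_
        · have := hx j
          positivity
        · have h1 : (1 : ℝ) ≤ 1 + x j := by linarith [hx j]
          rw [← Real.rpow_natCast, ← Real.rpow_mul (by linarith), ← Real.rpow_natCast]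
          exact Real.rpow_le_rpow_of_exponent_le h1 (Nat.le_ceil _)

theorem pow_bd {a t0 s T x : ℝ} (ht0 : 0 ≤ t0) (hs : t0 ≤ s) (hT : s ≤ T) (hx : 0 ≤ x)
    (hx0 : 0 < x + t0) :
    (x + s) ^ a ≤ (1 + T) ^ ⌈|a|⌉₊ * ((1 + x) ^ ⌈|a|⌉₊ * (x + t0) ^ (min a 0)) := by
  have hT0 : 0 ≤ T := ht0.trans (hs.trans hT)
  have h1 : (1 : ℝ) ≤ (1 + T) * (1 + x) := by nlinarith [mul_nonneg hT0 hx]
  rw [← mul_assoc, ← mul_pow]
  rcases le_or_gt 0 a with ha | ha
  · rw [min_eq_right ha, Real.rpow_zero, mul_one]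
    calc (x + s) ^ a ≤ ((1 + T) * (1 + x)) ^ a :=
          Real.rpow_le_rpow (by linarith) (by nlinarith [mul_nonneg hT0 hx]) ha
      _ ≤ ((1 + T) * (1 + x)) ^ ((⌈|a|⌉₊ : ℕ) : ℝ) :=
          Real.rpow_le_rpow_of_exponent_le h1 ((le_abs_self a).trans (Nat.le_ceil _))
      _ = _ := Real.rpow_natCast _ _
  · rw [min_eq_left ha.le]
    calc (x + s) ^ a ≤ (x + t0) ^ a :=
          Real.rpow_le_rpow_of_nonpos hx0 (by linarith) ha.le
      _ ≤ _ := le_mul_of_one_le_left (Real.rpow_nonneg hx0.le _) (one_le_pow₀ h1)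

theorem Q_nonneg {γ a t : ℝ} {x : Fin n → ℝ} (hx : ∀ j, 0 ≤ x j + t) : 0 ≤ Q γ a t x := by
  unfold Q
  exact mul_nonneg (W_nonneg _ _) (Finset.prod_nonneg fun j _ => Real.rpow_nonneg (hx j) _)

theorem Q_le {γ a t0 s T : ℝ} (hγ : 0 < γ) (ht0 : 0 ≤ t0) (hs : t0 ≤ s) (hT : s ≤ T)
    {x : Fin n → ℝ} (hx : ∀ j, 0 ≤ x j ∧ 0 < x j + t0) :
    Q γ a s x ≤ B ⌈(4 * n : ℕ) * γ⌉₊ ⌈|a|⌉₊ a t0 T x := by
  have h0 : ∀ j, 0 ≤ (x j + s) ^ a := fun j => Real.rpow_nonneg (by linarith [(hx j).2]) _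
  calc Q γ a s x ≤ (∏ j, (1 + x j) ^ ⌈(4 * n : ℕ) * γ⌉₊) * ∏ j, (x j + s) ^ a := by
        unfold Q
        exact mul_le_mul_of_nonneg_right (W_le hγ fun j => (hx j).1)
          (Finset.prod_nonneg fun j _ => h0 j)
    _ = ∏ j, ((1 + x j) ^ ⌈(4 * n : ℕ) * γ⌉₊ * (x j + s) ^ a) := by
        rw [Finset.prod_mul_distrib]
    _ ≤ _ := by
        unfold B b
        refine Finset.prod_le_prod (fun j _ => ?_) fun j _ => ?_
        · have := h0 j
          have := (hx j).1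
          positivity
        · have hj := (hx j).1
          calc (1 + x j) ^ ⌈(4 * n : ℕ) * γ⌉₊ * (x j + s) ^ a
              ≤ (1 + x j) ^ ⌈(4 * n : ℕ) * γ⌉₊ *
                ((1 + T) ^ ⌈|a|⌉₊ * ((1 + x j) ^ ⌈|a|⌉₊ * (x j + t0) ^ (min a 0))) :=
                mul_le_mul_of_nonneg_left (pow_bd ht0 hs hT hj (hx j).2) (by positivity)
            _ = _ := by rw [pow_add]; ring

theorem Q_measurable (γ a t : ℝ) : Measurable (Q (n := n) γ a t) := by
  unfold Q
  refine Measurable.mul (W_measurable γ) ?_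
  refine Finset.measurable_prod _ fun j _ => ?_
  have h : Measurable (fun x : Fin n → ℝ => x j + t) := by fun_prop
  exact h.pow_const a

theorem Q_integrable {γ a t0 t : ℝ} (hγ : 0 < γ) (h : Ok ν a t0) (ht : t0 ≤ t) :
    Integrable (Q (n := n) γ a t) (Measure.pi fun _ => ν) := by
  refine (B_integrable (n := n) h ⌈(4 * n : ℕ) * γ⌉₊ ⌈|a|⌉₊ t).mono'
    (Q_measurable γ a t).aestronglyMeasurable ?_
  filter_upwards [ae_pos h] with x hx
  rw [Real.norm_of_nonneg (Q_nonneg fun j => by linarith [(hx j).2])]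
  exact Q_le hγ h.nn ht le_rfl hx

theorem S_nonneg {t : ℝ} (ht : 0 < t) {x : Fin n → ℝ} (hx : ∀ j, 0 ≤ x j) : 0 ≤ S t x := by
  unfold S
  refine Finset.sum_nonneg fun j _ => ?_
  have := hx j
  positivity

theorem S_le {t : ℝ} (ht : 0 < t) {x : Fin n → ℝ} (hx : ∀ j, 0 ≤ x j) : S t x ≤ n * (1 / t) := by
  unfold S
  calc ∑ j, 1 / (x j + t) ≤ ∑ _j : Fin n, 1 / t := by
        refine Finset.sum_le_sum fun j _ => ?_
        exact one_div_le_one_div_of_le ht (by linarith [hx j])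
    _ = _ := by rw [Finset.sum_const, Finset.card_univ, Fintype.card_fin, nsmul_eq_mul]

theorem integrable_mul_bdd {a t0 : ℝ} (h : Ok ν a t0) {u g : (Fin n → ℝ) → ℝ}
    (hu : Integrable u (Measure.pi fun _ => ν)) (hg : Measurable g)
    {C : ℝ} (hC : ∀ x, (∀ j, 0 ≤ x j) → |g x| ≤ C) :
    Integrable (fun x => u x * g x) (Measure.pi fun _ => ν) := by
  refine (hu.norm.const_mul C).mono' (hu.aestronglyMeasurable.mul hg.aestronglyMeasurable) ?_
  filter_upwards [ae_pos h] with x hx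
  rw [norm_mul, mul_comm]
  exact mul_le_mul_of_nonneg_right (hC x fun j => (hx j).1) (norm_nonneg _)

theorem hasDerivAt_Q (γ a : ℝ) {t : ℝ} {x : Fin n → ℝ} (hx : ∀ j, 0 < x j + t) :
    HasDerivAt (fun s => Q γ a s x) (Q γ a t x * (a * S t x)) t := by
  have h1 : ∀ j ∈ (Finset.univ : Finset (Fin n)),
      HasDerivAt (fun s => (x j + s) ^ a) (1 * a * (x j + t) ^ (a - 1)) t := by
    intro j _
    have h : HasDerivAt (fun s => x j + s) 1 t := (hasDerivAt_id t).const_add (x j)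
    exact h.rpow_const (Or.inl (hx j).ne')
  have h2 := (HasDerivAt.fun_finsetProd h1).const_mul (W γ x)
  refine HasDerivAt.congr_deriv h2 ?_
  unfold Q S
  rw [Finset.mul_sum, Finset.mul_sum, Finset.mul_sum]
  refine Finset.sum_congr rfl fun i _ => ?_
  have hi : 0 < x i + t := hx i
  rw [smul_eq_mul, Real.rpow_sub_one hi.ne', ← Finset.prod_erase_mul Finset.univ
    (fun j => (x j + t) ^ a) (Finset.mem_univ i)]
  field_simp

theorem hasDerivAt_int {γ a t0 : ℝ} (hγ : 0 < γ) (h : Ok ν a t0) {t : ℝ} (ht : t0 < t) :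
    HasDerivAt (fun s => ∫ x, Q (n := n) γ a s x ∂(Measure.pi fun _ => ν))
      (∫ x, Q (n := n) γ a t x * (a * S t x) ∂(Measure.pi fun _ => ν)) t := by
  have ht00 := h.nn
  have ht1 : 0 < t := lt_of_le_of_lt h.nn ht
  set δ := (t0 + t) / 2 with hδ
  have hδ0 : 0 < δ := by rw [hδ]; linarith
  have hδt : t0 ≤ δ := by rw [hδ]; linarith
  have hs : Set.Ioo δ (2 * t) ∈ nhds t := Ioo_mem_nhds (by rw [hδ]; linarith) (by linarith)
  refine (hasDerivAt_integral_of_dominated_loc_of_deriv_le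
    (F' := fun s x => Q γ a s x * (a * S s x))
    (bound := fun x => (|a| * (n * (1 / δ))) * B ⌈(4 * n : ℕ) * γ⌉₊ ⌈|a|⌉₊ a t0 (2 * t) x)
    hs ?_ (Q_integrable hγ h ht.le) ?_ ?_ ((B_integrable h _ _ _).const_mul _) ?_).2
  · exact Filter.Eventually.of_forall fun s => (Q_measurable γ a s).aestronglyMeasurable
  · exact ((Q_measurable γ a t).mul ((S_measurable t).const_mul a)).aestronglyMeasurable
  · filter_upwards [ae_pos h] with x hx s hs
    have hs0 : 0 < s := by linarith [hs.1]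
    have h1 := Q_le (γ := γ) (a := a) hγ h.nn (hδt.trans hs.1.le) hs.2.le hx
    have h2 := S_le hs0 fun j => (hx j).1
    have h3 := S_nonneg hs0 fun j => (hx j).1
    have h4 := Q_nonneg (γ := γ) (a := a) (t := s) (x := x) fun j => by linarith [(hx j).1]
    have h5 : (1 : ℝ) / s ≤ 1 / δ := one_div_le_one_div_of_le hδ0 hs.1.le
    rw [norm_mul, norm_mul, Real.norm_of_nonneg h4, Real.norm_of_nonneg h3, Real.norm_eq_abs]
    have h6 : |a| * S s x ≤ |a| * (n * (1 / δ)) := by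
      refine mul_le_mul_of_nonneg_left (h2.trans ?_) (abs_nonneg a)
      exact mul_le_mul_of_nonneg_left h5 (Nat.cast_nonneg n)
    rw [mul_comm (Q γ a s x)]
    exact mul_le_mul h6 h1 h4 (by positivity)
  · filter_upwards [ae_pos h] with x hx s hs
    exact hasDerivAt_Q γ a fun j => by linarith [(hx j).1, hs.1]

theorem continuousOn_int {γ a t0 : ℝ} (hγ : 0 < γ) (h : Ok ν a t0) :
    ContinuousOn (fun s => ∫ x, Q (n := n) γ a s x ∂(Measure.pi fun _ => ν)) (Set.Ici t0) := by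
  intro t ht
  have ht0 : t0 ≤ t := ht
  have hev : ∀ᶠ s in nhdsWithin t (Set.Ici t0), t0 ≤ s ∧ s ≤ t + 1 := by
    have h1 : ∀ᶠ s in nhdsWithin t (Set.Ici t0), s ∈ Set.Ici t0 := self_mem_nhdsWithin
    have h2 : ∀ᶠ s in nhdsWithin t (Set.Ici t0), s < t + 1 :=
      nhdsWithin_le_nhds (Iio_mem_nhds (by linarith))
    filter_upwards [h1, h2] with s hs1 hs2
    exact ⟨hs1, hs2.le⟩
  refine continuousWithinAt_of_dominated
    (bound := B ⌈(4 * n : ℕ) * γ⌉₊ ⌈|a|⌉₊ a t0 (t + 1)) ?_ ?_ (B_integrable h _ _ _) ?_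
  · exact Filter.Eventually.of_forall fun s => (Q_measurable γ a s).aestronglyMeasurable
  · filter_upwards [hev] with s hs
    filter_upwards [ae_pos h] with x hx
    rw [Real.norm_of_nonneg (Q_nonneg fun j => by linarith [(hx j).2])]
    exact Q_le hγ h.nn hs.1 hs.2 hx
  · filter_upwards [ae_pos h] with x hx
    have : ContinuousAt (fun s => Q γ a s x) t :=
      (hasDerivAt_Q γ a fun j => by linarith [(hx j).2]).continuousAt
    exact this.continuousWithinAt

end Pool.Agent.Y705.BE
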