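import Pool.Agent.Y705.BE.Int

set_option autoImplicit false

/-!
# The key inequality: the mean of `∑ 1/(x_j + t)` is strictly decreasing in the exponent
-/

namespace Pool.Agent.Y705.BE

open MeasureTheory Finset
open scoped ENNReal Topology
open Pool.Agent.Helper575
open Pool.Agent.Helper575.Lag (S S_measurable)
open Pool.Agent.Helper575.Lag2 (gg gg_eq gg_measurable gg_symm gg_nonneg gg_mono prod_incr)

variable {n : ℕ}

/-- `f = ∏ (x_j + t)^c`. -/
noncomputable def ff (c t : ℝ) (x : Fin n → ℝ) : ℝ := ∏ j, (x j + t) ^ c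

theorem ff_measurable (c t : ℝ) : Measurable (ff (n := n) c t) := by
  unfold ff
  refine Finset.measurable_prod _ fun j _ => ?_
  have h : Measurable (fun x : Fin n → ℝ => x j + t) := by fun_prop
  exact h.pow_const c

theorem ff_symm (c t : ℝ) (σ : Equiv.Perm (Fin n)) (x : Fin n → ℝ) :
    ff c t (x ∘ σ) = ff c t x := by
  unfold ff
  exact Equiv.prod_comp σ (fun i => (x i + t) ^ c)

theorem one_dim {c t u v : ℝ} (hc : 0 < c) (ht : 0 < t) (hu : t ≤ u) (huv : u ≤ v) :
    c * t ^ (c + 1) * (1 / u - 1 / v) ≤ v ^ c - u ^ c := by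
  have hu0 : 0 < u := ht.trans_le hu
  have hv0 : 0 < v := hu0.trans_le huv
  have h1 : 1 - (v / u)⁻¹ ≤ Real.log (v / u) := Real.one_sub_inv_le_log_of_pos (by positivity)
  have h2 : (v / u) ^ c = Real.exp (Real.log (v / u) * c) := Real.rpow_def_of_pos (by positivity) _
  have h3 := Real.add_one_le_exp (Real.log (v / u) * c)
  have h4 : c * (1 - u / v) ≤ (v / u) ^ c - 1 := by
    rw [h2]
    rw [inv_div] at h1
    nlinarith
  have h5 : v ^ c = u ^ c * (v / u) ^ c := by
    rw [← Real.mul_rpow hu0.le (by positivity)]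
    congr 1
    field_simp
  have h6 : 0 < u ^ c := Real.rpow_pos_of_pos hu0 _
  have h7 : t ^ (c + 1) ≤ u ^ c * u := by
    rw [← Real.rpow_add_one hu0.ne']
    exact Real.rpow_le_rpow ht.le hu (by linarith)
  have h8 : 0 ≤ 1 / u - 1 / v := sub_nonneg.2 (one_div_le_one_div_of_le hu0 huv)
  calc c * t ^ (c + 1) * (1 / u - 1 / v) ≤ c * (u ^ c * u) * (1 / u - 1 / v) := by gcongr
    _ = u ^ c * (c * (1 - u / v)) := by field_simp
    _ ≤ u ^ c * ((v / u) ^ c - 1) := by gcongr
    _ = v ^ c - u ^ c := by rw [h5]; ring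

/-- the small multiple of `g` that can be subtracted from `f` -/
noncomputable def dd (n : ℕ) (c t : ℝ) : ℝ := (t ^ c) ^ n * (c * t ^ (c + 1)) / t ^ c

theorem dd_pos {c t : ℝ} (hc : 0 < c) (ht : 0 < t) : 0 < dd n c t := by
  unfold dd
  have := Real.rpow_pos_of_pos ht c
  have := Real.rpow_pos_of_pos ht (c + 1)
  positivity

theorem hh_mono {c t : ℝ} (hc : 0 < c) (ht : 0 < t) {x y : Fin n → ℝ} (hx : 0 ≤ x) (hxy : x ≤ y) :
    ff c t x - dd n c t * gg t x ≤ ff c t y - dd n c t * gg t y := by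
  have hT : 0 < t ^ c := Real.rpow_pos_of_pos ht c
  have hxj : ∀ j, t ≤ x j + t := fun j => by have : 0 ≤ x j := hx j; linarith
  have hyj : ∀ j, x j + t ≤ y j + t := fun j => by have := hxy j; linarith
  have h1 := prod_incr hT (a := fun j => (x j + t) ^ c) (b := fun j => (y j + t) ^ c)
    (fun j => Real.rpow_le_rpow ht.le (hxj j) hc.le)
    (fun j => Real.rpow_le_rpow (ht.le.trans (hxj j)) (hyj j) hc.le)
    (Finset.univ : Finset (Fin n))
  rw [Finset.card_univ, Fintype.card_fin] at h1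
  have h2 : c * t ^ (c + 1) * (gg t y - gg t x) ≤ ∑ j, ((y j + t) ^ c - (x j + t) ^ c) := by
    unfold gg
    rw [← Finset.sum_sub_distrib, Finset.mul_sum]
    refine Finset.sum_le_sum fun j _ => ?_
    have := one_dim hc ht (hxj j) (hyj j)
    calc _ = c * t ^ (c + 1) * (1 / (x j + t) - 1 / (y j + t)) := by ring
      _ ≤ _ := this
  have h3 : (t ^ c) ^ n * (c * t ^ (c + 1) * (gg t y - gg t x)) ≤
      t ^ c * (ff c t y - ff c t x) :=
    (mul_le_mul_of_nonneg_left h2 (by positivity)).trans h1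
  have h4 : t ^ c * (dd n c t * (gg t y - gg t x)) ≤ t ^ c * (ff c t y - ff c t x) := by
    calc t ^ c * (dd n c t * (gg t y - gg t x)) =
        (t ^ c) ^ n * (c * t ^ (c + 1) * (gg t y - gg t x)) := by
          unfold dd; field_simp
      _ ≤ _ := h3
  have h6 := le_of_mul_le_mul_left h4 hT
  linarith

theorem hh_nonneg {c t : ℝ} (hc : 0 < c) (ht : 0 < t) {x : Fin n → ℝ} (hx : 0 ≤ x) :
    0 ≤ ff c t x - dd n c t * gg t x := by
  have h := hh_mono hc ht (le_refl (0 : Fin n → ℝ)) hx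
  refine le_trans ?_ h
  have h1 : gg t (0 : Fin n → ℝ) = 0 := by unfold gg; simp
  have h2 : 0 ≤ ff c t (0 : Fin n → ℝ) := by
    unfold ff
    exact Finset.prod_nonneg fun j _ => Real.rpow_nonneg (by simp [ht.le]) _
  rw [h1]; simpa using h2

variable {ν : Measure ℝ} [IsFiniteMeasure ν]

theorem ofReal_J {γ a t0 t : ℝ} (h : Ok ν a t0) (ht : 0 < t) {φ : (Fin n → ℝ) → ℝ}
    (hφ : ∀ x, 0 ≤ x → 0 ≤ φ x)
    (hint : Integrable (fun x => Q (n := n) γ a t x * φ x) (Measure.pi fun _ => ν)) :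
    ENNReal.ofReal (∫ x, Q γ a t x * φ x ∂(Measure.pi fun _ : Fin n => ν)) =
      ∫⁻ x, wt (n := n) γ (fun y => (y + t) ^ a) φ x ∂(Measure.pi fun _ => ν) := by
  rw [ofReal_integral_eq_lintegral_ofReal hint]
  · refine lintegral_congr_ae ?_
    filter_upwards [ae_pos h] with x hx
    unfold wt
    rw [Set.indicator_of_mem (show x ∈ Set.Ici (0 : Fin n → ℝ) from fun j => (hx j).1)]
    rfl
  · filter_upwards [ae_pos h] with x hx
    exact mul_nonneg (Q_nonneg fun j => by linarith [(hx j).1]) (hφ x fun j => (hx j).1)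

/-- real FKG inequality -/
theorem fkg_real {γ a t0 t : ℝ} (hγ : 0 < γ) (h : Ok ν a t0) (ht0 : t0 ≤ t) (ht : 0 < t)
    {f g : (Fin n → ℝ) → ℝ} (hf : Measurable f) (hg : Measurable g)
    (hfs : ∀ (σ : Equiv.Perm (Fin n)) x, f (x ∘ σ) = f x)
    (hgs : ∀ (σ : Equiv.Perm (Fin n)) x, g (x ∘ σ) = g x)
    (hf0 : ∀ x, 0 ≤ x → 0 ≤ f x) (hg0 : ∀ x, 0 ≤ x → 0 ≤ g x)
    (hfm : ∀ x y, 0 ≤ x → x ≤ y → f x ≤ f y) (hgm : ∀ x y, 0 ≤ x → x ≤ y → g x ≤ g y)
    (if1 : Integrable (fun x => Q (n := n) γ a t x * f x) (Measure.pi fun _ => ν))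
    (ig1 : Integrable (fun x => Q (n := n) γ a t x * g x) (Measure.pi fun _ => ν))
    (ifg : Integrable (fun x => Q (n := n) γ a t x * (f x * g x)) (Measure.pi fun _ => ν)) :
    (∫ x, Q γ a t x * f x ∂(Measure.pi fun _ : Fin n => ν)) *
        (∫ x, Q γ a t x * g x ∂(Measure.pi fun _ : Fin n => ν)) ≤
      (∫ x, Q γ a t x * (f x * g x) ∂(Measure.pi fun _ : Fin n => ν)) *
        ∫ x, Q γ a t x ∂(Measure.pi fun _ : Fin n => ν) := by
  have hρ : Measurable (fun y : ℝ => (y + t) ^ a) := by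
    have h : Measurable (fun x : ℝ => x + t) := by fun_prop
    exact h.pow_const a
  have h1 := fkg ν hγ hρ (fun x hx => Real.rpow_nonneg (by linarith) _) hf hg hfs hgs hf0 hg0
    hfm hgm
  have i1 : Integrable (fun x => Q (n := n) γ a t x * (1 : ℝ)) (Measure.pi fun _ => ν) := by
    simpa using Q_integrable (n := n) hγ h ht0
  rw [← ofReal_J h ht hf0 if1, ← ofReal_J h ht hg0 ig1,
    ← ofReal_J h ht (fun x hx => mul_nonneg (hf0 x hx) (hg0 x hx)) ifg,
    ← ofReal_J h ht (fun _ _ => zero_le_one) i1] at h1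
  have nn : ∀ φ : (Fin n → ℝ) → ℝ, (∀ x, 0 ≤ x → 0 ≤ φ x) →
      0 ≤ ∫ x, Q γ a t x * φ x ∂(Measure.pi fun _ : Fin n => ν) := by
    intro φ hφ
    refine integral_nonneg_of_ae ?_
    filter_upwards [ae_pos h] with x hx
    exact mul_nonneg (Q_nonneg fun j => by linarith [(hx j).1]) (hφ x fun j => (hx j).1)
  rw [← ENNReal.ofReal_mul (nn f hf0),
    ← ENNReal.ofReal_mul (nn _ fun x hx => mul_nonneg (hf0 x hx) (hg0 x hx)),
    ENNReal.ofReal_le_ofReal_iff (mul_nonneg (nn _ fun x hx => mul_nonneg (hf0 x hx) (hg0 x hx))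
      (nn _ fun _ _ => zero_le_one))] at h1
  simpa using h1

/-- points of the support -/
def Sp (ν : Measure ℝ) : Set ℝ := {p | ∀ U ∈ 𝓝 p, ν U ≠ 0}

theorem Sp_compl (ν : Measure ℝ) : ν (Sp ν)ᶜ = 0 := by
  refine measure_null_of_locally_null _ fun x hx => ?_
  have : ∃ U ∈ 𝓝 x, ν U = 0 := by
    by_contra hcon
    push Not at hcon
    exact hx hcon
  obtain ⟨U, hU, h0⟩ := this
  exact ⟨U, mem_nhdsWithin_of_mem_nhds hU, h0⟩

theorem exists_pts {ν : Measure ℝ} {N : ℕ} (hN : ∀ s : Finset ℝ, s.card ≤ N → ν (↑s)ᶜ ≠ 0) :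
    ∀ k ≤ N + 1, ∃ s : Finset ℝ, s.card = k ∧ ∀ p ∈ s, p ∈ Sp ν := by
  intro k
  induction k with
  | zero => intro _; exact ⟨∅, rfl, by simp⟩
  | succ k ih =>
    intro hk
    obtain ⟨s, hs, hsS⟩ := ih (by omega)
    have h1 : ν ((↑s : Set ℝ)ᶜ ∩ Sp ν) ≠ 0 := by
      intro h0
      apply hN s (by omega)
      refine le_antisymm ?_ (zero_le)
      calc ν (↑s)ᶜ ≤ ν (((↑s : Set ℝ)ᶜ ∩ Sp ν) ∪ (Sp ν)ᶜ) := by
            refine measure_mono fun x hx => ?_
            by_cases hxS : x ∈ Sp ν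
            · exact Or.inl ⟨hx, hxS⟩
            · exact Or.inr hxS
        _ ≤ _ := measure_union_le _ _
        _ = 0 := by rw [h0, Sp_compl, add_zero]
    obtain ⟨p, hp1, hp2⟩ := nonempty_of_measure_ne_zero h1
    refine ⟨insert p s, ?_, ?_⟩
    · rw [Finset.card_insert_of_notMem (by simpa using hp1), hs]
    · intro q hq
      rcases Finset.mem_insert.1 hq with rfl | hq
      · exact hp2
      · exact hsS q hq

theorem Sp_nonneg {a t0 : ℝ} (h : Ok ν a t0) {p : ℝ} (hp : p ∈ Sp ν) : 0 ≤ p := by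
  by_contra hcon
  push Not at hcon
  apply hp (Set.Iio 0) (Iio_mem_nhds hcon)
  have := h.pos
  rw [ae_iff] at this
  refine measure_mono_null (fun x hx => ?_) this
  have hx' : x < 0 := hx
  show ¬ (0 ≤ x ∧ 0 < x + t0)
  intro hh
  linarith [hh.1]

/-- positivity of integrals -/
theorem int_pos {φ : (Fin n → ℝ) → ℝ} (h0 : 0 ≤ᵐ[Measure.pi fun _ : Fin n => ν] φ)
    (hi : Integrable φ (Measure.pi fun _ : Fin n => ν)) {q : Fin n → ℝ} (hq : ∀ j, q j ∈ Sp ν)
    (hc : ContinuousAt φ q) (hpos : 0 < φ q) :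
    0 < ∫ x, φ x ∂(Measure.pi fun _ : Fin n => ν) := by
  by_contra hcon
  push Not at hcon
  have h1 : ∫ x, φ x ∂(Measure.pi fun _ : Fin n => ν) = 0 :=
    le_antisymm hcon (integral_nonneg_of_ae h0)
  rw [integral_eq_zero_iff_of_nonneg_ae h0 hi] at h1
  have h2 : {x | 0 < φ x} ∈ 𝓝 q := hc.eventually (lt_mem_nhds hpos)
  obtain ⟨ε, hε, hball⟩ := Metric.mem_nhds_iff.1 h2
  have h3 : (Measure.pi fun _ : Fin n => ν) (Metric.ball q ε) = 0 := by
    refine measure_mono_null (fun x hx => ?_) (ae_iff.1 h1)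
    have : 0 < φ x := hball hx
    show ¬ (φ x = 0)
    exact this.ne'
  rw [ball_pi _ hε, Measure.pi_pi] at h3
  rw [Finset.prod_eq_zero_iff] at h3
  obtain ⟨j, _, hj⟩ := h3
  exact hq j _ (Metric.ball_mem_nhds _ hε) hj

theorem W_continuous {γ : ℝ} (hγ : 0 < γ) : Continuous (W γ : (Fin n → ℝ) → ℝ) := by
  unfold W
  refine Continuous.rpow_const ?_ fun x => Or.inr hγ.le
  unfold FKG.V
  refine continuous_finsetProd _ fun i _ => continuous_finsetProd _ fun j _ => ?_
  exact ((continuous_apply j).sub (continuous_apply i)).pow 2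

theorem Q_continuousAt {γ a t : ℝ} (hγ : 0 < γ) {q : Fin n → ℝ} (hq : ∀ j, 0 < q j + t) :
    ContinuousAt (Q γ a t) q := by
  unfold Q
  refine ContinuousAt.mul (W_continuous hγ).continuousAt ?_
  refine tendsto_finsetProd _ fun j _ => ?_
  have h : ContinuousAt (fun x : Fin n → ℝ => x j + t) q :=
    ((continuous_apply j).add continuous_const).continuousAt
  exact h.rpow_const (Or.inl (hq j).ne')

theorem gg_continuousAt {t : ℝ} {q : Fin n → ℝ} (hq : ∀ j, 0 < q j + t) :
    ContinuousAt (gg (n := n) t) q := by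
  unfold gg
  refine tendsto_finsetSum _ fun j _ => ?_
  have h : ContinuousAt (fun x : Fin n → ℝ => x j + t) q :=
    ((continuous_apply j).add continuous_const).continuousAt
  exact continuousAt_const.sub (continuousAt_const.div h (hq j).ne')

theorem Q_pos {γ a t : ℝ} {q : Fin n → ℝ} (hq : ∀ j, 0 < q j + t)
    (hinj : Function.Injective q) : 0 < Q γ a t q := by
  unfold Q W
  have h1 : FKG.V q ≠ 0 := by
    rw [FKG.V_eq]
    exact pow_ne_zero _ (Matrix.det_vandermonde_ne_zero_iff.2 hinj)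
  have h2 : 0 < FKG.V q := lt_of_le_of_ne (FKG.V_nonneg _) (Ne.symm h1)
  have h3 : 0 < ∏ j, (q j + t) ^ a :=
    Finset.prod_pos fun j _ => Real.rpow_pos_of_pos (hq j) _
  have := Real.rpow_pos_of_pos h2 γ
  positivity

section
variable {γ a b t0 t : ℝ} (hγ : 0 < γ) (ha : Ok ν a t0) (hb : Ok ν b t0) (hab : a < b)
  (ht0 : t0 ≤ t) (ht : 0 < t)

omit [IsFiniteMeasure ν] in
theorem gg_bdd (ht : 0 < t) (x : Fin n → ℝ) (hx : ∀ j, 0 ≤ x j) : |gg t x| ≤ n * (1 / t) := by
  rw [abs_of_nonneg (gg_nonneg ht fun j => hx j), gg_eq]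
  linarith [S_nonneg ht hx]

include hγ ha ht0 ht

theorem int_qg : Integrable (fun x => Q (n := n) γ a t x * gg t x) (Measure.pi fun _ => ν) :=
  integrable_mul_bdd ha (Q_integrable hγ ha ht0) (gg_measurable t) (gg_bdd ht)

theorem int_qgg : Integrable (fun x => Q (n := n) γ a t x * (gg t x * gg t x))
    (Measure.pi fun _ => ν) := by
  refine integrable_mul_bdd (C := (n * (1 / t)) * (n * (1 / t))) ha (Q_integrable hγ ha ht0)
    ((gg_measurable t).mul (gg_measurable t)) fun x hx => ?_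
  rw [abs_mul]
  exact mul_le_mul (gg_bdd ht x hx) (gg_bdd ht x hx) (abs_nonneg _) (by positivity)

theorem Z_pos' {q : Fin n → ℝ} (hq : ∀ j, q j ∈ Sp ν) (hinj : Function.Injective q) :
    0 < ∫ x, Q (n := n) γ a t x ∂(Measure.pi fun _ => ν) := by
  have hq0 : ∀ j, 0 < q j + t := fun j => by linarith [Sp_nonneg ha (hq j)]
  refine int_pos ?_ (Q_integrable hγ ha ht0) hq (Q_continuousAt hγ hq0) (Q_pos hq0 hinj)
  filter_upwards [ae_pos ha] with x hx
  exact Q_nonneg fun j => by linarith [(hx j).1]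

theorem cov_pos {p q : Fin n → ℝ} (hp : ∀ j, p j ∈ Sp ν) (hq : ∀ j, q j ∈ Sp ν)
    (hpi : Function.Injective p) (hqi : Function.Injective q) (hpq : gg t p < gg t q) :
    (∫ x, Q (n := n) γ a t x * gg t x ∂(Measure.pi fun _ => ν)) ^ 2 <
      (∫ x, Q (n := n) γ a t x * (gg t x * gg t x) ∂(Measure.pi fun _ => ν)) *
        ∫ x, Q (n := n) γ a t x ∂(Measure.pi fun _ => ν) := by
  set I1 := ∫ x, Q (n := n) γ a t x ∂(Measure.pi fun _ => ν) with hI1
  set Ig := ∫ x, Q (n := n) γ a t x * gg t x ∂(Measure.pi fun _ => ν) with hIg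
  set Igg := ∫ x, Q (n := n) γ a t x * (gg t x * gg t x) ∂(Measure.pi fun _ => ν) with hIgg
  have h1 : 0 < I1 := Z_pos' hγ ha ht0 ht hp hpi
  set c := Ig / I1 with hc
  have e : ∀ x, Q (n := n) γ a t x * (gg t x - c) ^ 2 =
      Q γ a t x * (gg t x * gg t x) - 2 * c * (Q γ a t x * gg t x) +
        c ^ 2 * Q γ a t x := fun x => by ring
  have hint : Integrable (fun x => Q (n := n) γ a t x * (gg t x - c) ^ 2)
      (Measure.pi fun _ => ν) := by
    simp_rw [e]
    exact ((int_qgg hγ ha ht0 ht).sub ((int_qg hγ ha ht0 ht).const_mul _)).add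
      ((Q_integrable hγ ha ht0).const_mul _)
  have hval : ∫ x, Q (n := n) γ a t x * (gg t x - c) ^ 2 ∂(Measure.pi fun _ => ν) =
      Igg - 2 * c * Ig + c ^ 2 * I1 := by
    simp_rw [e]
    have hi1 : Integrable (fun x => Q (n := n) γ a t x * (gg t x * gg t x) -
        2 * c * (Q γ a t x * gg t x)) (Measure.pi fun _ => ν) :=
      (int_qgg hγ ha ht0 ht).sub ((int_qg hγ ha ht0 ht).const_mul _)
    rw [integral_add hi1 ((Q_integrable hγ ha ht0).const_mul _),
      integral_sub (int_qgg hγ ha ht0 ht) ((int_qg hγ ha ht0 ht).const_mul _),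
      integral_const_mul, integral_const_mul]
  have hnn : 0 ≤ᵐ[Measure.pi fun _ : Fin n => ν] fun x => Q (n := n) γ a t x * (gg t x - c) ^ 2 := by
    filter_upwards [ae_pos ha] with x hx
    exact mul_nonneg (Q_nonneg fun j => by linarith [(hx j).1]) (sq_nonneg _)
  have main : ∀ r : Fin n → ℝ, (∀ j, r j ∈ Sp ν) → Function.Injective r → gg t r ≠ c →
      0 < ∫ x, Q (n := n) γ a t x * (gg t x - c) ^ 2 ∂(Measure.pi fun _ => ν) := by
    intro r hr hri hne
    have hr0 : ∀ j, 0 < r j + t := fun j => by linarith [Sp_nonneg ha (hr j)]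
    refine int_pos hnn hint hr ?_ (mul_pos (Q_pos hr0 hri) ?_)
    · exact (Q_continuousAt hγ hr0).mul (((gg_continuousAt hr0).sub continuousAt_const).pow 2)
    · have := sub_ne_zero.2 hne
      positivity
  have hpos : 0 < ∫ x, Q (n := n) γ a t x * (gg t x - c) ^ 2 ∂(Measure.pi fun _ => ν) := by
    by_cases hpc : gg t p = c
    · exact main q hq hqi (by rw [← hpc]; exact hpq.ne')
    · exact main p hp hpi hpc
  rw [hval] at hpos
  have h2 : Igg - 2 * c * Ig + c ^ 2 * I1 = (Igg * I1 - Ig ^ 2) / I1 := by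
    rw [hc]; field_simp; ring
  rw [h2] at hpos
  have h3 := (div_pos_iff_of_pos_right h1).1 hpos
  linarith

include hb hab

omit [IsFiniteMeasure ν] hγ ha hb ht0 hab in
theorem qf_eq {c : ℝ} {x : Fin n → ℝ} (hx : ∀ j, 0 ≤ x j) :
    Q γ a t x * ff c t x = Q γ (a + c) t x := by
  unfold Q ff
  rw [mul_assoc, ← Finset.prod_mul_distrib]
  congr 1
  refine Finset.prod_congr rfl fun j _ => ?_
  have : 0 < x j + t := by linarith [hx j]
  rw [← Real.rpow_add this]

theorem int_qf : Integrable (fun x => Q (n := n) γ a t x * ff (b - a) t x)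
    (Measure.pi fun _ => ν) := by
  refine (Q_integrable (n := n) hγ hb ht0).congr ?_
  filter_upwards [ae_pos ha] with x hx
  rw [qf_eq ht fun j => (hx j).1]
  congr 1; ring

theorem int_qfg : Integrable (fun x => Q (n := n) γ a t x * (ff (b - a) t x * gg t x))
    (Measure.pi fun _ => ν) := by
  have h := integrable_mul_bdd ha (int_qf (n := n) hγ ha hb hab ht0 ht) (gg_measurable t)
    (gg_bdd ht)
  refine h.congr (Filter.Eventually.of_forall fun x => ?_)
  simp only; ring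

/-- the key strict inequality -/
theorem key {p q : Fin n → ℝ} (hp : ∀ j, p j ∈ Sp ν) (hq : ∀ j, q j ∈ Sp ν)
    (hpi : Function.Injective p) (hqi : Function.Injective q) (hpq : gg t p < gg t q) :
    (∫ x, Q (n := n) γ b t x * S t x ∂(Measure.pi fun _ => ν)) *
        (∫ x, Q (n := n) γ a t x ∂(Measure.pi fun _ => ν)) <
      (∫ x, Q (n := n) γ b t x ∂(Measure.pi fun _ => ν)) *
        ∫ x, Q (n := n) γ a t x * S t x ∂(Measure.pi fun _ => ν) := by
  have hc : 0 < b - a := sub_pos.2 hab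
  set I1 := ∫ x, Q (n := n) γ a t x ∂(Measure.pi fun _ => ν) with hI1
  set Ig := ∫ x, Q (n := n) γ a t x * gg t x ∂(Measure.pi fun _ => ν) with hIg
  set Igg := ∫ x, Q (n := n) γ a t x * (gg t x * gg t x) ∂(Measure.pi fun _ => ν) with hIgg
  set If := ∫ x, Q (n := n) γ a t x * ff (b - a) t x ∂(Measure.pi fun _ => ν) with hIf
  set Ifg := ∫ x, Q (n := n) γ a t x * (ff (b - a) t x * gg t x) ∂(Measure.pi fun _ => ν) with hIfg
  set d := dd n (b - a) t with hd
  have hdpos : 0 < d := dd_pos hc ht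
  have iq := Q_integrable (n := n) hγ ha ht0
  have iqg := int_qg (n := n) hγ ha ht0 ht
  have iqgg := int_qgg (n := n) hγ ha ht0 ht
  have iqf := int_qf (n := n) hγ ha hb hab ht0 ht
  have iqfg := int_qfg (n := n) hγ ha hb hab ht0 ht
  have e1 : ∀ x, Q (n := n) γ a t x * (ff (b - a) t x - d * gg t x) =
      Q γ a t x * ff (b - a) t x - d * (Q γ a t x * gg t x) := fun x => by ring
  have e2 : ∀ x, Q (n := n) γ a t x * ((ff (b - a) t x - d * gg t x) * gg t x) =
      Q γ a t x * (ff (b - a) t x * gg t x) - d * (Q γ a t x * (gg t x * gg t x)) :=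
    fun x => by ring
  have ih : Integrable (fun x => Q (n := n) γ a t x * (ff (b - a) t x - d * gg t x))
      (Measure.pi fun _ => ν) := by
    simp_rw [e1]; exact iqf.sub (iqg.const_mul _)
  have ihg : Integrable (fun x => Q (n := n) γ a t x * ((ff (b - a) t x - d * gg t x) * gg t x))
      (Measure.pi fun _ => ν) := by
    simp_rw [e2]; exact iqfg.sub (iqgg.const_mul _)
  have hF := fkg_real (n := n) hγ ha ht0 ht (f := fun x => ff (b - a) t x - d * gg t x) (g := gg t)
    ((ff_measurable (b - a) t).sub ((gg_measurable t).const_mul d)) (gg_measurable t)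
    (fun σ x => by rw [ff_symm, gg_symm]) (gg_symm t)
    (fun x hx => hh_nonneg hc ht hx) (fun x hx => gg_nonneg ht hx)
    (fun x y hx hxy => hh_mono hc ht hx hxy) (fun x y hx hxy => gg_mono ht hx hxy)
    ih iqg ihg
  have v1 : ∫ x, Q (n := n) γ a t x * (ff (b - a) t x - d * gg t x) ∂(Measure.pi fun _ => ν) =
      If - d * Ig := by
    simp_rw [e1]
    rw [integral_sub iqf (iqg.const_mul _), integral_const_mul]
  have v2 : ∫ x, Q (n := n) γ a t x * ((ff (b - a) t x - d * gg t x) * gg t x)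
      ∂(Measure.pi fun _ => ν) = Ifg - d * Igg := by
    simp_rw [e2]
    rw [integral_sub iqfg (iqgg.const_mul _), integral_const_mul]
  rw [v1, v2, ← hIg, ← hI1] at hF
  have hcov := cov_pos hγ ha ht0 ht hp hq hpi hqi hpq
  rw [← hI1, ← hIg, ← hIgg] at hcov
  -- translate
  have hba : a + (b - a) = b := by ring
  have f1 : ∫ x, Q (n := n) γ b t x ∂(Measure.pi fun _ => ν) = If := by
    refine integral_congr_ae ?_
    filter_upwards [ae_pos ha] with x hx
    rw [qf_eq ht fun j => (hx j).1, hba]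
  have iSm : Integrable (fun x => Q (n := n) γ a t x * S t x) (Measure.pi fun _ => ν) :=
    integrable_mul_bdd ha iq (S_measurable t) (C := n * (1 / t)) fun x hx => by
      rw [abs_of_nonneg (S_nonneg ht hx)]; exact S_le ht hx
  have f2 : ∫ x, Q (n := n) γ a t x * S t x ∂(Measure.pi fun _ => ν) = n * (1 / t) * I1 - Ig := by
    have : ∀ x, Q (n := n) γ a t x * S t x =
        n * (1 / t) * Q γ a t x - Q γ a t x * gg t x := fun x => by
      rw [gg_eq]; ring
    simp_rw [this]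
    rw [integral_sub (iq.const_mul _) iqg, integral_const_mul]
  have f3 : ∫ x, Q (n := n) γ b t x * S t x ∂(Measure.pi fun _ => ν) =
      n * (1 / t) * If - Ifg := by
    have h1 : ∫ x, Q (n := n) γ b t x * S t x ∂(Measure.pi fun _ => ν) =
        ∫ x, (n * (1 / t) * (Q (n := n) γ a t x * ff (b - a) t x) -
          Q γ a t x * (ff (b - a) t x * gg t x)) ∂(Measure.pi fun _ => ν) := by
      refine integral_congr_ae ?_
      filter_upwards [ae_pos ha] with x hx
      have h2 := qf_eq (γ := γ) (a := a) (c := b - a) ht fun j => (hx j).1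
      rw [hba] at h2
      rw [← h2, gg_eq]; ring
    rw [h1, integral_sub (iqf.const_mul _) iqfg, integral_const_mul]
  rw [f1, f2, f3]
  have h5 : d * Ig ^ 2 < d * (Igg * I1) := mul_lt_mul_of_pos_left hcov hdpos
  nlinarith

end

end Pool.Agent.Y705.BE
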