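import Mathlib

set_option autoImplicit false

/-!
# Powers of a measure with density
-/

namespace Pool.Agent.Y705.BE

open MeasureTheory Finset
open scoped ENNReal Topology

/-- the integral of a product function -/
theorem lintegral_prod_fin (n : ℕ) (μ : Fin n → Measure ℝ) [∀ i, SigmaFinite (μ i)]
    (f : Fin n → ℝ → ℝ≥0∞) (hf : ∀ i, Measurable (f i)) :
    ∫⁻ x, ∏ i, f i (x i) ∂(Measure.pi μ) = ∏ i, ∫⁻ y, f i y ∂(μ i) := by
  induction n with
  | zero =>
    have hv : (Measure.pi μ) Set.univ = 1 := by
      rw [Measure.pi_of_empty]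
      simp
    simp [hv]
  | succ n ih =>
    have hcons : ∀ p : ℝ × (Fin n → ℝ),
        (MeasurableEquiv.piFinSuccAbove (fun _ : Fin (n + 1) => ℝ) 0).symm p =
          (Fin.cons p.1 p.2 : Fin (n + 1) → ℝ) := by
      intro p
      ext i
      refine Fin.cases ?_ (fun j => ?_) i
      · simp [MeasurableEquiv.piFinSuccAbove_symm_apply, Fin.insertNthEquiv]
      · simp [MeasurableEquiv.piFinSuccAbove_symm_apply, Fin.insertNthEquiv]
    have hmp := (measurePreserving_piFinSuccAbove μ 0).symm
    have hF : Measurable (fun x : Fin (n + 1) → ℝ => ∏ i, f i (x i)) :=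
      Finset.measurable_prod _ fun i _ => (hf i).comp (measurable_pi_apply i)
    rw [← hmp.lintegral_comp hF]
    simp_rw [hcons, Fin.prod_univ_succ, Fin.cons_zero, Fin.cons_succ]
    have hG : Measurable (fun z : Fin n → ℝ => ∏ i : Fin n, f i.succ (z i)) :=
      Finset.measurable_prod _ fun i _ => (hf i.succ).comp (measurable_pi_apply i)
    have h := lintegral_prod_mul (μ := μ 0) (ν := Measure.pi fun j : Fin n => μ j.succ)
      (f := f 0) (g := fun z : Fin n → ℝ => ∏ i : Fin n, f i.succ (z i))
      (hf 0).aemeasurable hG.aemeasurable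
    have e : (Measure.pi fun j : Fin n => μ ((0 : Fin (n + 1)).succAbove j)) =
        Measure.pi fun j : Fin n => μ j.succ := by
      congr 1
    rw [e, h, ih (fun j => μ j.succ) (fun j => f j.succ) fun j => hf _]

theorem pi_withDensity {n : ℕ} (ν : Measure ℝ) [SigmaFinite ν] {h : ℝ → ℝ≥0∞}
    (hm : Measurable h) [SigmaFinite (ν.withDensity h)] :
    Measure.pi (fun _ : Fin n => ν.withDensity h) =
      (Measure.pi fun _ : Fin n => ν).withDensity (fun x => ∏ j, h (x j)) := by
  refine Measure.pi_eq fun s hs => ?_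
  rw [withDensity_apply _ (MeasurableSet.univ_pi hs), Measure.restrict_pi_pi,
    lintegral_prod_fin n (fun i => ν.restrict (s i)) (fun _ => h) fun _ => hm]
  refine Finset.prod_congr rfl fun i _ => ?_
  rw [withDensity_apply _ (hs i)]

end Pool.Agent.Y705.BE
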