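import Pool.Agent.Y705.BE.Cond
import Pool.Agent.Y705.BE.Key
import Pool.Agent.Y705.BE.PiW

set_option autoImplicit false

/-!
# Logarithms of the power means, their derivatives, and the comparison of the derivatives
-/

namespace Pool.Agent.Y705.BE

open MeasureTheory Finset
open scoped ENNReal Topology
open Pool.Agent.Helper575
open Pool.Agent.Helper575.Lag (S S_measurable)
open Pool.Agent.Helper575.Lag2 (gg gg_eq gg_measurable gg_symm gg_nonneg gg_mono)

variable {n : ℕ}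

/-- logarithm of the power mean -/
noncomputable def Lg (n : ℕ) (γ : ℝ) (ν : Measure ℝ) (a t : ℝ) : ℝ :=
  if a = 0 then (∫ x, W γ x * SL t x ∂(Measure.pi fun _ : Fin n => ν)) /
      ∫ x, W γ x ∂(Measure.pi fun _ : Fin n => ν)
  else (1 / a) * Real.log ((∫ x, Q γ a t x ∂(Measure.pi fun _ : Fin n => ν)) /
      ∫ x, W γ x ∂(Measure.pi fun _ : Fin n => ν))

/-- mean of `∑ 1 / (x_j + t)` -/
noncomputable def mm (n : ℕ) (γ : ℝ) (ν : Measure ℝ) (a t : ℝ) : ℝ :=
  (∫ x, Q γ a t x * S t x ∂(Measure.pi fun _ : Fin n => ν)) /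
    ∫ x, Q γ a t x ∂(Measure.pi fun _ : Fin n => ν)

variable {ν : Measure ℝ} [IsFiniteMeasure ν]

omit [IsFiniteMeasure ν] in
theorem pts (hn : Adm n ν) : ∃ p : Fin (n + 1) → ℝ, StrictMono p ∧ ∀ i, p i ∈ Sp ν := by
  obtain ⟨s, hs, hsp⟩ := exists_pts hn.points (n + 1) le_rfl
  exact ⟨s.orderEmbOfFin hs, (s.orderEmbOfFin hs).strictMono,
    fun i => hsp _ (s.orderEmbOfFin_mem hs i)⟩

theorem Z_pos {γ a t0 t : ℝ} (hγ : 0 < γ) (hn : Adm n ν) (ha : Ok ν a t0) (ht0 : t0 ≤ t) :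
    0 < ∫ x, Q (n := n) γ a t x ∂(Measure.pi fun _ => ν) := by
  obtain ⟨p, hp, hpS⟩ := pts hn
  have h0 := Sp_nonneg ha (hpS 0)
  have hq0 : ∀ j : Fin n, 0 < p j.succ + t := fun j => by
    have := hp (Fin.succ_pos j)
    have := ha.nn
    linarith
  refine int_pos (q := fun j : Fin n => p j.succ) ?_ (Q_integrable hγ ha ht0)
    (fun j => hpS _) (Q_continuousAt hγ hq0) (Q_pos hq0 ?_)
  · filter_upwards [ae_pos ha] with x hx
    exact Q_nonneg fun j => by linarith [(hx j).2]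
  · intro i j hij
    exact Fin.succ_injective _ (hp.injective hij)

theorem Q_zero (γ t : ℝ) (x : Fin n → ℝ) : Q γ 0 t x = W γ x := by
  unfold Q; simp

theorem W_pos {γ : ℝ} (hγ : 0 < γ) (hn : Adm n ν) :
    0 < ∫ x, W (n := n) γ x ∂(Measure.pi fun _ => ν) := by
  have h := Z_pos (n := n) (t := 1) hγ hn (ok_pos hn 0 one_pos) le_rfl
  simp_rw [Q_zero] at h
  exact h

/-- the conditions at `t0` for the exponent `a` -/
structure Cn (ν : Measure ℝ) (a t0 : ℝ) : Prop where
  ok : Ok ν a t0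
  okL : a = 0 → OkL ν t0

theorem cn_pos (hn : Adm n ν) (a : ℝ) {t0 : ℝ} (ht0 : 0 < t0) : Cn ν a t0 :=
  ⟨ok_pos hn a ht0, fun _ => okL_pos hn ht0⟩

theorem cn_zero (hn : Adm n ν) {a : ℝ} (h0 : Near0 ν a) : Cn ν a 0 :=
  ⟨ok_zero hn h0, fun ha => okL_zero hn (ha ▸ h0)⟩

theorem hasDerivAt_Lg {γ a t0 t : ℝ} (hγ : 0 < γ) (hn : Adm n ν) (hc : Cn ν a t0) (ht : t0 < t) :
    HasDerivAt (Lg n γ ν a) (mm n γ ν a t) t := by
  have hW := W_pos hγ hn
  by_cases ha : a = 0
  · subst ha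
    have h1 := (hasDerivAt_intL (n := n) hγ (hc.okL rfl) ht).div_const
      (∫ x, W (n := n) γ x ∂(Measure.pi fun _ => ν))
    have e : Lg n γ ν 0 = fun s => (∫ x, W γ x * SL (n := n) s x ∂(Measure.pi fun _ => ν)) /
        ∫ x, W (n := n) γ x ∂(Measure.pi fun _ => ν) := by
      funext s; unfold Lg; rw [if_pos rfl]
    rw [e]
    refine h1.congr_deriv ?_
    unfold mm
    simp_rw [Q_zero]
  · have hZ := Z_pos (n := n) hγ hn hc.ok ht.le
    have h1 := ((hasDerivAt_int (n := n) hγ hc.ok ht).div_const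
      (∫ x, W (n := n) γ x ∂(Measure.pi fun _ => ν))).log (div_pos hZ hW).ne'
    have h2 := h1.const_mul (1 / a)
    have e : Lg n γ ν a = fun s => 1 / a * Real.log
        ((∫ x, Q (n := n) γ a s x ∂(Measure.pi fun _ => ν)) /
        ∫ x, W (n := n) γ x ∂(Measure.pi fun _ => ν)) := by
      funext s; unfold Lg; rw [if_neg ha]
    rw [e]
    refine h2.congr_deriv ?_
    unfold mm
    have e2 : ∫ x, Q (n := n) γ a t x * (a * S t x) ∂(Measure.pi fun _ => ν) =
        a * ∫ x, Q (n := n) γ a t x * S t x ∂(Measure.pi fun _ => ν) := by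
      rw [← integral_const_mul]
      exact integral_congr_ae (Filter.Eventually.of_forall fun x => by ring)
    rw [e2]
    field_simp

theorem continuousOn_Lg {γ a t0 : ℝ} (hγ : 0 < γ) (hn : Adm n ν) (hc : Cn ν a t0) :
    ContinuousOn (Lg n γ ν a) (Set.Ici t0) := by
  have hW := W_pos hγ hn
  by_cases ha : a = 0
  · subst ha
    have h1 := (continuousOn_intL (n := n) hγ (hc.okL rfl)).div_const
      (∫ x, W (n := n) γ x ∂(Measure.pi fun _ => ν))
    refine h1.congr fun s _ => ?_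
    unfold Lg; rw [if_pos rfl]
  · have h1 := (((continuousOn_int (n := n) hγ hc.ok).div_const
      (∫ x, W (n := n) γ x ∂(Measure.pi fun _ => ν))).log
        fun s hs => (div_pos (Z_pos (n := n) hγ hn hc.ok hs) hW).ne').const_mul (1 / a)
    refine h1.congr fun s _ => ?_
    unfold Lg; rw [if_neg ha]

theorem PM_eq {β a t : ℝ} (hβ : 0 < β) (hn : Adm n ν) (hc : Cn ν a t) :
    PM n β ν a t = Real.exp (Lg n (β / 2) ν a t) := by
  have hγ : 0 < β / 2 := by linarith
  have hW := W_pos hγ hn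
  have e0 : Z0 n β ν = ∫ x, W (n := n) (β / 2) x ∂(Measure.pi fun _ => ν) := by
    unfold Z0; simp_rw [vdm_eq]
  by_cases ha : a = 0
  · subst ha
    unfold PM Lg
    rw [if_pos rfl, if_pos rfl, e0]
    congr 2
    unfold ZL
    refine integral_congr_ae ?_
    filter_upwards [ae_pos hc.ok] with x hx
    rw [vdm_eq, Real.log_prod fun j _ => (hx j).2.ne']
    rfl
  · have hZ := Z_pos (n := n) hγ hn hc.ok le_rfl
    unfold PM Lg
    rw [if_neg ha, if_neg ha, e0]
    have e1 : Z n β ν a t = ∫ x, Q (n := n) (β / 2) a t x ∂(Measure.pi fun _ => ν) := by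
      unfold Z Q; simp_rw [vdm_eq]
    rw [e1, Real.rpow_def_of_pos (div_pos hZ hW), mul_comm]

theorem mm_lt {γ a b t : ℝ} (hγ : 0 < γ) (hn1 : 1 ≤ n) (hn : Adm n ν) (hab : a < b) (ht : 0 < t) :
    mm n γ ν b t < mm n γ ν a t := by
  have ha := ok_pos hn a ht
  have hb := ok_pos hn b ht
  obtain ⟨p, hp, hpS⟩ := pts hn
  have hZa := Z_pos (n := n) hγ hn ha le_rfl
  have hZb := Z_pos (n := n) hγ hn hb le_rfl
  have : Nonempty (Fin n) := ⟨⟨0, by omega⟩⟩
  have hpq : gg t (fun j : Fin n => p j.castSucc) < gg t (fun j : Fin n => p j.succ) := by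
    unfold gg
    refine Finset.sum_lt_sum_of_nonempty Finset.univ_nonempty fun j _ => ?_
    have h1 : 0 ≤ p j.castSucc := Sp_nonneg ha (hpS _)
    have h2 : p j.castSucc < p j.succ := hp (Fin.castSucc_lt_succ)
    have h3 := one_div_lt_one_div_of_lt (show 0 < p j.castSucc + t by linarith)
      (show p j.castSucc + t < p j.succ + t by linarith)
    linarith
  have hk := key (n := n) hγ ha hb hab le_rfl ht (p := fun j : Fin n => p j.castSucc)
    (q := fun j : Fin n => p j.succ) (fun j => hpS _) (fun j => hpS _)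
    (fun i j hij => Fin.castSucc_injective _ (hp.injective hij))
    (fun i j hij => Fin.succ_injective _ (hp.injective hij)) hpq
  unfold mm
  rw [div_lt_div_iff₀ hZb hZa]
  linarith

/-! ### change of the one-body measure -/

section
variable {ν₁ ν₂ : Measure ℝ} [IsFiniteMeasure ν₁] [IsFiniteMeasure ν₂] {h : ℝ → ℝ}
  (h1 : Adm n ν₁) (h2 : Adm n ν₂) (hm : Measurable h) (h0 : ∀ x, 0 ≤ x → 0 ≤ h x)
  (hw : ν₂ = ν₁.withDensity (fun x => ENNReal.ofReal (h x)))
include h1 hm h0 hw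

omit [IsFiniteMeasure ν₁] [IsFiniteMeasure ν₂] h1 h0 hw in
theorem prod_meas : Measurable (fun x : Fin n → ℝ => ∏ j, ENNReal.ofReal (h (x j))) :=
  Finset.measurable_prod _ fun j _ =>
    ENNReal.measurable_ofReal.comp (hm.comp (measurable_pi_apply j))

theorem toReal_ae : ∀ᵐ x ∂(Measure.pi fun _ : Fin n => ν₁),
    (∏ j, ENNReal.ofReal (h (x j))).toReal = ∏ j, h (x j) := by
  filter_upwards [ae_pos (ok_pos h1 0 one_pos)] with x hx
  rw [ENNReal.toReal_prod]
  exact Finset.prod_congr rfl fun j _ => ENNReal.toReal_ofReal (h0 _ (hx j).1)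

theorem int_wd (φ : (Fin n → ℝ) → ℝ) :
    ∫ x, φ x ∂(Measure.pi fun _ : Fin n => ν₂) =
      ∫ x, φ x * ∏ j, h (x j) ∂(Measure.pi fun _ : Fin n => ν₁) := by
  have hs : SigmaFinite (ν₁.withDensity fun x => ENNReal.ofReal (h x)) := by
    rw [← hw]; infer_instance
  rw [hw, pi_withDensity ν₁ (h := fun x => ENNReal.ofReal (h x)) hm.ennreal_ofReal,
    integral_withDensity_eq_integral_toReal_smul (prod_meas hm)
      (Filter.Eventually.of_forall fun x => ENNReal.prod_lt_top fun j _ => ENNReal.ofReal_lt_top)]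
  refine integral_congr_ae ?_
  filter_upwards [toReal_ae h1 hm h0 hw] with x hx
  rw [hx, smul_eq_mul, mul_comm]

theorem integrable_wd {φ : (Fin n → ℝ) → ℝ}
    (hφ : Integrable φ (Measure.pi fun _ : Fin n => ν₂)) :
    Integrable (fun x => φ x * ∏ j, h (x j)) (Measure.pi fun _ : Fin n => ν₁) := by
  have hs : SigmaFinite (ν₁.withDensity fun x => ENNReal.ofReal (h x)) := by
    rw [← hw]; infer_instance
  rw [hw, pi_withDensity ν₁ (h := fun x => ENNReal.ofReal (h x)) hm.ennreal_ofReal,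
    integrable_withDensity_iff_integrable_smul' (prod_meas hm)
      (Filter.Eventually.of_forall fun x => ENNReal.prod_lt_top fun j _ => ENNReal.ofReal_lt_top)]
    at hφ
  refine hφ.congr ?_
  filter_upwards [toReal_ae h1 hm h0 hw] with x hx
  rw [hx, smul_eq_mul, mul_comm]

include h2

theorem mm_le {γ a t : ℝ} (hγ : 0 < γ) (hmon : MonotoneOn h (Set.Ici 0)) (ht : 0 < t) :
    mm n γ ν₂ a t ≤ mm n γ ν₁ a t := by
  have ha1 := ok_pos h1 a ht
  have ha2 := ok_pos h2 a ht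
  have hZ1 := Z_pos (n := n) hγ h1 ha1 le_rfl
  have hZ2 := Z_pos (n := n) hγ h2 ha2 le_rfl
  have iq1 := Q_integrable (n := n) hγ ha1 le_rfl
  have iq2 := Q_integrable (n := n) hγ ha2 le_rfl
  have iqg1 := int_qg (n := n) hγ ha1 le_rfl ht
  have iqg2 := int_qg (n := n) hγ ha2 le_rfl ht
  have j1 := integrable_wd h1 hm h0 hw iq2
  have j2 := integrable_wd h1 hm h0 hw iqg2
  have hf : Measurable (fun x : Fin n → ℝ => ∏ j, h (x j)) :=
    Finset.measurable_prod _ fun j _ => hm.comp (measurable_pi_apply j)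
  have hF := fkg_real (n := n) hγ ha1 le_rfl ht (f := fun x => ∏ j, h (x j)) (g := gg t)
    hf (gg_measurable t) (fun σ x => Equiv.prod_comp σ (fun i => h (x i))) (gg_symm t)
    (fun x hx => Finset.prod_nonneg fun j _ => h0 _ (hx j)) (fun x hx => gg_nonneg ht hx)
    (fun x y hx hxy => Finset.prod_le_prod (fun j _ => h0 _ (hx j)) fun j _ =>
      hmon (hx j) ((hx j).trans (hxy j)) (hxy j))
    (fun x y hx hxy => gg_mono ht hx hxy) j1 iqg1
    (j2.congr (Filter.Eventually.of_forall fun x => by simp only; ring))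
  have e1 : ∫ x, Q γ a t x * ∏ j, h (x j) ∂(Measure.pi fun _ : Fin n => ν₁) =
      ∫ x, Q (n := n) γ a t x ∂(Measure.pi fun _ => ν₂) := (int_wd h1 hm h0 hw _).symm
  have e2 : ∫ x, Q γ a t x * ((∏ j, h (x j)) * gg t x) ∂(Measure.pi fun _ : Fin n => ν₁) =
      ∫ x, Q (n := n) γ a t x * gg t x ∂(Measure.pi fun _ => ν₂) := by
    rw [int_wd h1 hm h0 hw]
    exact integral_congr_ae (Filter.Eventually.of_forall fun x => by simp only; ring)
  rw [e1, e2] at hF
  have f1 : ∀ (μ : Measure (Fin n → ℝ)), Integrable (Q (n := n) γ a t) μ →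
      Integrable (fun x => Q (n := n) γ a t x * gg t x) μ →
      ∫ x, Q (n := n) γ a t x * S t x ∂μ =
        n * (1 / t) * (∫ x, Q (n := n) γ a t x ∂μ) - ∫ x, Q (n := n) γ a t x * gg t x ∂μ := by
    intro μ i1 i2
    have : ∀ x, Q (n := n) γ a t x * S t x =
        n * (1 / t) * Q γ a t x - Q γ a t x * gg t x := fun x => by
      rw [gg_eq]; ring
    simp_rw [this]
    rw [integral_sub (i1.const_mul _) i2, integral_const_mul]
  unfold mm
  rw [div_le_div_iff₀ hZ2 hZ1, f1 _ iq1 iqg1, f1 _ iq2 iqg2]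
  nlinarith

end

end Pool.Agent.Y705.BE
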