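import Pool.Agent.Y705.BE.Main

set_option autoImplicit false

/-!
# The ratio of two power means is strictly decreasing; the case of `n` atoms
-/

namespace Pool.Agent.Y705.BE

open MeasureTheory Finset
open scoped ENNReal Topology
open Pool.Agent.Helper575

variable {n : ℕ}

section
variable {ν₁ ν₂ : Measure ℝ} [IsFiniteMeasure ν₁] [IsFiniteMeasure ν₂] {β a b : ℝ}
  (hβ : 0 < β) (h1 : Adm n ν₁) (h2 : Adm n ν₂)
include hβ h1 h2

theorem ratio_eq {t : ℝ} (c1 : Cn ν₁ a t) (c2 : Cn ν₂ b t) :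
    PM n β ν₂ b t / PM n β ν₁ a t =
      Real.exp (Lg n (β / 2) ν₂ b t - Lg n (β / 2) ν₁ a t) := by
  rw [PM_eq hβ h1 c1, PM_eq hβ h2 c2, Real.exp_sub]

theorem ratio_hasDerivAt {t : ℝ} (ht : 0 < t) :
    HasDerivAt (fun s => PM n β ν₂ b s / PM n β ν₁ a s)
      (Real.exp (Lg n (β / 2) ν₂ b t - Lg n (β / 2) ν₁ a t) *
        (mm n (β / 2) ν₂ b t - mm n (β / 2) ν₁ a t)) t := by
  have hγ : 0 < β / 2 := by linarith
  have ht2 : 0 < t / 2 := by linarith
  have d1 := hasDerivAt_Lg (n := n) hγ h1 (cn_pos h1 a ht2) (by linarith : t / 2 < t)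
  have d2 := hasDerivAt_Lg (n := n) hγ h2 (cn_pos h2 b ht2) (by linarith : t / 2 < t)
  refine (d2.sub d1).exp.congr_of_eventuallyEq ?_
  filter_upwards [lt_mem_nhds ht] with s hs
  exact ratio_eq hβ h1 h2 (cn_pos h1 a hs) (cn_pos h2 b hs)

theorem ratio_pos {t : ℝ} (c1 : Cn ν₁ a t) (c2 : Cn ν₂ b t) :
    0 < PM n β ν₂ b t / PM n β ν₁ a t := by
  rw [ratio_eq hβ h1 h2 c1 c2]
  exact Real.exp_pos _

theorem ratio_anti (hmm : ∀ t, 0 < t → mm n (β / 2) ν₂ b t ≤ mm n (β / 2) ν₁ a t) :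
    AntitoneOn (fun t => PM n β ν₂ b t / PM n β ν₁ a t) (Set.Ioi 0) := by
  refine antitoneOn_of_deriv_nonpos (convex_Ioi 0) ?_ ?_ ?_
  · intro t ht
    exact (ratio_hasDerivAt hβ h1 h2 ht).continuousAt.continuousWithinAt
  · intro t ht
    rw [interior_Ioi] at ht
    exact (ratio_hasDerivAt hβ h1 h2 ht).differentiableAt.differentiableWithinAt
  · intro t ht
    rw [interior_Ioi] at ht
    rw [(ratio_hasDerivAt hβ h1 h2 ht).deriv]
    exact mul_nonpos_of_nonneg_of_nonpos (Real.exp_pos _).le (sub_nonpos.2 (hmm t ht))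

variable (hmm : ∀ t, 0 < t → mm n (β / 2) ν₂ b t < mm n (β / 2) ν₁ a t)
include hmm

theorem ratio_deriv_neg {t : ℝ} (ht : 0 < t) :
    ∃ r < 0, HasDerivAt (fun s => PM n β ν₂ b s / PM n β ν₁ a s) r t :=
  ⟨_, mul_neg_of_pos_of_neg (Real.exp_pos _) (sub_neg.2 (hmm t ht)),
    ratio_hasDerivAt hβ h1 h2 ht⟩

theorem ratio_strict : StrictAntiOn (fun t => PM n β ν₂ b t / PM n β ν₁ a t) (Set.Ioi 0) := by
  refine strictAntiOn_of_deriv_neg (convex_Ioi 0) ?_ ?_
  · intro t ht
    exact (ratio_hasDerivAt hβ h1 h2 ht).continuousAt.continuousWithinAt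
  · intro t ht
    rw [interior_Ioi] at ht
    rw [(ratio_hasDerivAt hβ h1 h2 ht).deriv]
    exact mul_neg_of_pos_of_neg (Real.exp_pos _) (sub_neg.2 (hmm t ht))

theorem ratio_strict0 (n1 : Near0 ν₁ a) (n2 : Near0 ν₂ b) :
    StrictAntiOn (fun t => PM n β ν₂ b t / PM n β ν₁ a t) (Set.Ici 0) := by
  have hγ : 0 < β / 2 := by linarith
  have c1 : ∀ t : ℝ, 0 ≤ t → Cn ν₁ a t := fun t ht => by
    rcases ht.eq_or_lt with rfl | ht
    · exact cn_zero h1 n1
    · exact cn_pos h1 a ht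
  have c2 : ∀ t : ℝ, 0 ≤ t → Cn ν₂ b t := fun t ht => by
    rcases ht.eq_or_lt with rfl | ht
    · exact cn_zero h2 n2
    · exact cn_pos h2 b ht
  refine strictAntiOn_of_deriv_neg (convex_Ici 0) ?_ ?_
  · have hc := ((continuousOn_Lg (n := n) hγ h2 (c2 0 le_rfl)).sub
      (continuousOn_Lg (n := n) hγ h1 (c1 0 le_rfl))).rexp
    refine hc.congr fun t ht => ?_
    exact ratio_eq hβ h1 h2 (c1 t ht) (c2 t ht)
  · intro t ht
    rw [interior_Ici] at ht
    rw [(ratio_hasDerivAt hβ h1 h2 ht).deriv]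
    exact mul_neg_of_pos_of_neg (Real.exp_pos _) (sub_neg.2 (hmm t ht))

end

/-! ### exactly `n` atoms -/

theorem atoms {ν : Measure ℝ} [IsFiniteMeasure ν] {β : ℝ} (hβ : 0 < β) {s : Finset ℝ}
    (hs : s.card = n) (hp : ∀ p ∈ s, 0 ≤ p ∧ ν {p} ≠ 0) (hc : ν (↑s)ᶜ = 0) (a : ℝ) {t : ℝ}
    (ht : 0 < t) : PM n β ν a t = ∏ p ∈ s, (p + t) := by
  have hγ : 0 < β / 2 := by linarith
  have hae : ∀ᵐ x ∂ν, x ∈ s := by
    rw [ae_iff]
    exact hc
  have hok : Ok ν 0 t := by
    refine ⟨ht.le, ?_, fun m => ?_⟩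
    · filter_upwards [hae] with x hx
      exact ⟨(hp x hx).1, by linarith [(hp x hx).1]⟩
    · rw [min_self]
      simp only [Real.rpow_zero, mul_one]
      refine Integrable.of_bound (C := ∑ p ∈ s, ‖(1 + p) ^ m‖) ?_ ?_
      · have h2 : Measurable (fun x : ℝ => (1 + x) ^ m) := by fun_prop
        exact h2.aestronglyMeasurable
      · filter_upwards [hae] with x hx
        exact Finset.single_le_sum (f := fun p : ℝ => ‖(1 + p) ^ m‖)
          (fun p _ => norm_nonneg _) hx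
  have haen : ∀ᵐ x ∂(Measure.pi fun _ : Fin n => ν), ∀ j, x j ∈ s := by
    rw [ae_all_iff]
    intro j
    exact (Measure.tendsto_eval_ae_ae (μ := fun _ : Fin n => ν) (i := j)).eventually hae
  have hprod : ∀ (x : Fin n → ℝ), (∀ j, x j ∈ s) → Function.Injective x → ∀ g : ℝ → ℝ,
      ∏ j, g (x j) = ∏ p ∈ s, g p := by
    intro x hx hinj g
    have e : Finset.univ.image x = s := by
      refine Finset.eq_of_subset_of_card_le ?_ ?_
      · intro y hy
        rw [Finset.mem_image] at hy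
        obtain ⟨j, _, rfl⟩ := hy
        exact hx j
      · rw [Finset.card_image_of_injective _ hinj, Finset.card_univ, Fintype.card_fin, hs]
    rw [← e, Finset.prod_image fun i _ j _ hij => hinj hij]
  set P := ∏ p ∈ s, (p + t) with hP
  have hPpos : 0 < P := Finset.prod_pos fun p hp' => by linarith [(hp p hp').1]
  have hW : 0 < ∫ x, W (n := n) (β / 2) x ∂(Measure.pi fun _ => ν) := by
    have hq : ∀ j, s.orderEmbOfFin hs j ∈ Sp ν := fun j U hU h0 =>
      (hp _ (s.orderEmbOfFin_mem hs j)).2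
        (measure_mono_null (Set.singleton_subset_iff.2 (mem_of_mem_nhds hU)) h0)
    have hq0 : ∀ j, 0 < s.orderEmbOfFin hs j + t := fun j => by
      linarith [(hp _ (s.orderEmbOfFin_mem hs j)).1]
    have h := int_pos (n := n) (q := fun j => s.orderEmbOfFin hs j) (φ := Q (β / 2) 0 t) ?_
      (Q_integrable hγ hok le_rfl) hq (Q_continuousAt hγ hq0)
      (Q_pos hq0 (s.orderEmbOfFin hs).injective)
    · simp_rw [Q_zero] at h
      exact h
    · filter_upwards [ae_pos hok] with x hx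
      exact Q_nonneg fun j => by linarith [(hx j).1]
  have hv0 : ∀ x : Fin n → ℝ, ¬ Function.Injective x → vdm n β x = 0 := by
    intro x hx
    rw [vdm_eq, W, FKG.V_zero hx, Real.zero_rpow hγ.ne']
  have e0 : Z0 n β ν = ∫ x, W (n := n) (β / 2) x ∂(Measure.pi fun _ => ν) := by
    unfold Z0; simp_rw [vdm_eq]
  have hZ0 : 0 < Z0 n β ν := by rw [e0]; exact hW
  by_cases ha : a = 0
  · subst ha
    have e : ZL n β ν t = Z0 n β ν * Real.log P := by
      unfold ZL Z0
      rw [← integral_mul_const]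
      refine integral_congr_ae ?_
      filter_upwards [haen] with x hx
      by_cases hinj : Function.Injective x
      · rw [hprod x hx hinj fun y => y + t]
      · simp only [hv0 x hinj, zero_mul]
    unfold PM
    rw [if_pos rfl, e, mul_div_cancel_left₀ _ hZ0.ne', Real.exp_log hPpos]
  · have e : Z n β ν a t = Z0 n β ν * P ^ a := by
      unfold Z Z0
      rw [← integral_mul_const]
      refine integral_congr_ae ?_
      filter_upwards [haen] with x hx
      by_cases hinj : Function.Injective x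
      · rw [hprod x hx hinj fun y => (y + t) ^ a, hP,
          Real.finset_prod_rpow _ _ fun p hp' => by linarith [(hp p hp').1]]
      · simp only [hv0 x hinj, zero_mul]
    unfold PM
    rw [if_neg ha, e, mul_div_cancel_left₀ _ hZ0.ne', ← Real.rpow_mul hPpos.le,
      mul_one_div_cancel ha, Real.rpow_one]

end Pool.Agent.Y705.BE
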